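import Mathlib
import Pool.Agent.W432.PC.Ddx

set_option autoImplicit false

open Polynomial WithZero
open Pool.Agent.W432.PC

namespace Pool.Agent.W432.FD

section gauss

variable {k : Type*} [Field k] (w : Valuation k ℤᵐ⁰)

lemma natCast_le_one (j : ℕ) : w (j : k) ≤ 1 := by
  induction j with
  | zero => simp
  | succ j ih =>
    push_cast
    exact (w.map_add _ _).trans (max_le ih (by simp))

/-- The Gauss size of a polynomial. -/
noncomputable def gs (f : k[X]) : ℤᵐ⁰ := f.support.sup fun j => w (f.coeff j)

lemma le_gs (f : k[X]) (j : ℕ) : w (f.coeff j) ≤ gs w f := by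
  by_cases h : j ∈ f.support
  · exact Finset.le_sup (f := fun j => w (f.coeff j)) h
  · rw [notMem_support_iff.mp h, map_zero]
    exact zero_le

lemma gs_le {f : k[X]} {B : ℤᵐ⁰} : gs w f ≤ B ↔ ∀ j, w (f.coeff j) ≤ B := by
  constructor
  · intro h j
    exact (le_gs w f j).trans h
  · intro h
    exact Finset.sup_le fun j _ => h j

lemma exists_gs (f : k[X]) : ∃ j, w (f.coeff j) = gs w f := by
  by_cases h : f.support.Nonempty
  · obtain ⟨j, hj, hmax⟩ := Finset.exists_max_image f.support (fun j => w (f.coeff j)) h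
    refine ⟨j, le_antisymm (le_gs w f j) (Finset.sup_le fun i hi => hmax i hi)⟩
  · rw [Finset.not_nonempty_iff_eq_empty, support_eq_empty] at h
    refine ⟨0, ?_⟩
    rw [h]
    simp [gs]

lemma gs_ne_zero {f : k[X]} (hf : f ≠ 0) : gs w f ≠ 0 := by
  intro h0
  apply hf
  ext j
  have h1 := le_gs w f j
  rw [h0] at h1
  have h2 : w (f.coeff j) = 0 := le_antisymm h1 zero_le
  rw [coeff_zero]
  exact (w.zero_iff).mp h2

lemma gs_mul (f g : k[X]) : gs w (f * g) = gs w f * gs w g := by
  classical
  by_cases hf : f = 0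
  · subst hf; rw [zero_mul]; simp [gs]
  by_cases hg : g = 0
  · subst hg; rw [mul_zero]; simp [gs]
  have hF : 0 < gs w f := lt_of_le_of_ne zero_le (gs_ne_zero w hf).symm
  have hG : 0 < gs w g := lt_of_le_of_ne zero_le (gs_ne_zero w hg).symm
  apply le_antisymm
  · rw [gs_le]
    intro j
    rw [coeff_mul]
    refine w.map_sum_le fun x _ => ?_
    rw [map_mul]
    exact mul_le_mul' (le_gs w f _) (le_gs w g _)
  · have hexf := exists_gs w f
    have hexg := exists_gs w g
    set i₀ := Nat.find hexf with hi₀
    set j₀ := Nat.find hexg with hj₀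
    have hi : w (f.coeff i₀) = gs w f := Nat.find_spec hexf
    have hj : w (g.coeff j₀) = gs w g := Nat.find_spec hexg
    have hi' : ∀ i < i₀, w (f.coeff i) < gs w f := fun i h =>
      lt_of_le_of_ne (le_gs w f i) (Nat.find_min hexf h)
    have hj' : ∀ j < j₀, w (g.coeff j) < gs w g := fun j h =>
      lt_of_le_of_ne (le_gs w g j) (Nat.find_min hexg h)
    have h1 : (f * g).coeff (i₀ + j₀) = ∑ x ∈ (Finset.HasAntidiagonal.antidiagonal (i₀ + j₀)).erase (i₀, j₀),
        f.coeff x.1 * g.coeff x.2 + f.coeff i₀ * g.coeff j₀ := by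
      rw [coeff_mul]
      rw [Finset.sum_erase_add _ _ (Finset.HasAntidiagonal.mem_antidiagonal.mpr rfl :
        (i₀, j₀) ∈ Finset.HasAntidiagonal.antidiagonal (i₀ + j₀))]
    have hfg : 0 < gs w f * gs w g := mul_pos hF hG
    have h2 : w (∑ x ∈ (Finset.HasAntidiagonal.antidiagonal (i₀ + j₀)).erase (i₀, j₀),
        f.coeff x.1 * g.coeff x.2) < gs w f * gs w g := by
      refine w.map_sum_lt hfg.ne' fun x hx => ?_
      rw [Finset.mem_erase, Finset.HasAntidiagonal.mem_antidiagonal] at hx
      rw [map_mul]
      rcases lt_or_ge x.1 i₀ with h | h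
      · calc w (f.coeff x.1) * w (g.coeff x.2) ≤ w (f.coeff x.1) * gs w g :=
              mul_le_mul' le_rfl (le_gs w g _)
          _ < gs w f * gs w g := mul_lt_mul_of_pos_right (hi' _ h) hG
      · have h3 : x.2 < j₀ := by
          by_contra h4
          rw [not_lt] at h4
          apply hx.1
          have h5 : x.1 = i₀ := by omega
          have h6 : x.2 = j₀ := by omega
          exact Prod.ext h5 h6
        calc w (f.coeff x.1) * w (g.coeff x.2) ≤ gs w f * w (g.coeff x.2) :=
              mul_le_mul' (le_gs w f _) le_rfl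
          _ < gs w f * gs w g := mul_lt_mul_of_pos_left (hj' _ h3) hF
    have h3 : w (f.coeff i₀ * g.coeff j₀) = gs w f * gs w g := by rw [map_mul, hi, hj]
    have h4 : w ((f * g).coeff (i₀ + j₀)) = gs w f * gs w g := by
      rw [h1, w.map_add_eq_of_lt_right (by rw [h3]; exact h2), h3]
    rw [← h4]
    exact le_gs w _ _

/-- The Gauss valuation on polynomials. -/
noncomputable def gaussVal : Valuation k[X] ℤᵐ⁰ where
  toFun := gs w
  map_zero' := by simp [gs]
  map_one' := by
    apply le_antisymm
    · rw [gs_le]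
      intro j
      rw [coeff_one]
      by_cases h : j = 0 <;> simp [h]
    · have := le_gs w (1 : k[X]) 0
      simpa using this
  map_mul' := gs_mul w
  map_add_le_max' f g := by
    rw [gs_le]
    intro j
    rw [coeff_add]
    refine (w.map_add _ _).trans (max_le_max (le_gs w f j) (le_gs w g j))

lemma gaussVal_apply (f : k[X]) : gaussVal w f = gs w f := rfl

lemma gauss_supp : nonZeroDivisors k[X] ≤ (gaussVal w).supp.primeCompl := by
  intro f hf h
  exact gs_ne_zero w (nonZeroDivisors.ne_zero hf) h

/-- The Gauss valuation on rational functions. -/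
noncomputable def gaussR : Valuation (RatFunc k) ℤᵐ⁰ :=
  (gaussVal w).extendToLocalization (gauss_supp w) (RatFunc k)

lemma gaussR_algebraMap (f : k[X]) : gaussR w (algebraMap k[X] (RatFunc k) f) = gs w f := by
  unfold gaussR
  rw [Valuation.extendToLocalization_apply_map_apply]
  rfl

lemma gs_derivative_le (f : k[X]) : gs w (derivative f) ≤ gs w f := by
  rw [gs_le]
  intro j
  rw [coeff_derivative, map_mul]
  have h1 : w ((j : k) + 1) ≤ 1 := by
    have : ((j : k) + 1) = ((j + 1 : ℕ) : k) := by push_cast; ring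
    rw [this]
    exact natCast_le_one w (j + 1)
  calc w (f.coeff (j + 1)) * w ((j : k) + 1) ≤ gs w f * 1 := mul_le_mul' (le_gs w f _) h1
    _ = gs w f := mul_one _

lemma gaussR_ddx_le (f : RatFunc k) : gaussR w (ddx k f) ≤ gaussR w f := by
  obtain ⟨p, q, hq, rfl⟩ : ∃ p q : k[X], q ≠ 0 ∧
      f = algebraMap k[X] (RatFunc k) p / algebraMap k[X] (RatFunc k) q :=
    ⟨f.num, f.denom, f.denom_ne_zero, (RatFunc.num_div_denom f).symm⟩
  set P := algebraMap k[X] (RatFunc k) p with hP
  set Q := algebraMap k[X] (RatFunc k) q with hQ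
  have hQ0 : Q ≠ 0 := by
    rw [hQ, Ne, map_eq_zero_iff _ (IsFractionRing.injective k[X] (RatFunc k))]
    exact hq
  have h1 : ddx k P = ddx k (P / Q) * Q + (P / Q) * ddx k Q := by
    have h2 : P = (P / Q) * Q := by field_simp
    conv_lhs => rw [h2, Derivation.leibniz]
    simp only [smul_eq_mul]
    ring
  have h3 : ddx k (P / Q) * Q = ddx k P - (P / Q) * ddx k Q := by rw [h1]; ring
  have hvQ : 0 < gaussR w Q := by
    rw [hQ, gaussR_algebraMap]
    exact lt_of_le_of_ne zero_le (gs_ne_zero w hq).symm
  have h4 : gaussR w (ddx k (P / Q)) * gaussR w Q ≤ gaussR w (P / Q) * gaussR w Q := by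
    rw [← map_mul, h3]
    refine ((gaussR w).map_sub _ _).trans (max_le ?_ ?_)
    · have h5 : gaussR w (P / Q) * gaussR w Q = gaussR w P := by
        rw [← map_mul]; congr 1; field_simp
      rw [h5, hP, ddx_algebraMap, gaussR_algebraMap, gaussR_algebraMap]
      exact gs_derivative_le w p
    · rw [map_mul]
      refine mul_le_mul' le_rfl ?_
      rw [hQ, ddx_algebraMap, gaussR_algebraMap, gaussR_algebraMap]
      exact gs_derivative_le w q
  exact le_of_mul_le_mul_right h4 hvQ

end gauss

section degree

variable {σ : Type*} {R : Type*} [CommRing R] [IsDomain R]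

/-- The degree valuation on polynomials in several variables. -/
noncomputable def degVal : Valuation (MvPolynomial σ R) ℤᵐ⁰ where
  toFun f := by classical exact if f = 0 then 0 else exp (f.totalDegree : ℤ)
  map_zero' := by simp
  map_one' := by simp
  map_mul' f g := by
    classical
    by_cases hf : f = 0
    · simp [hf]
    by_cases hg : g = 0
    · simp [hg]
    rw [if_neg hf, if_neg hg, if_neg (mul_ne_zero hf hg),
      MvPolynomial.totalDegree_mul_of_isDomain hf hg]
    push_cast
    rw [exp_add]
  map_add_le_max' f g := by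
    classical
    by_cases hfg : f + g = 0
    · rw [if_pos hfg]; exact zero_le
    by_cases hf : f = 0
    · simp [hf]
    by_cases hg : g = 0
    · simp [hg]
    rw [if_neg hf, if_neg hg, if_neg hfg, le_max_iff, exp_le_exp, exp_le_exp]
    have h := MvPolynomial.totalDegree_add f g
    rcases le_max_iff.mp h with h | h
    · left; exact_mod_cast h
    · right; exact_mod_cast h

lemma degVal_of_ne {f : MvPolynomial σ R} (hf : f ≠ 0) :
    degVal f = exp (f.totalDegree : ℤ) := by
  classical
  change (if f = 0 then 0 else exp (f.totalDegree : ℤ)) = _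
  rw [if_neg hf]

lemma degVal_supp : nonZeroDivisors (MvPolynomial σ R) ≤ (degVal (σ := σ) (R := R)).supp.primeCompl := by
  intro f hf h
  have h1 : degVal f = 0 := h
  rw [degVal_of_ne (nonZeroDivisors.ne_zero hf)] at h1
  exact exp_ne_zero h1

variable (K : Type*) [Field K] [Algebra (MvPolynomial σ R) K] [IsFractionRing (MvPolynomial σ R) K]

/-- The degree valuation on the field of fractions. -/
noncomputable def degK : Valuation K ℤᵐ⁰ :=
  (degVal (σ := σ) (R := R)).extendToLocalization degVal_supp K

lemma degK_algebraMap (f : MvPolynomial σ R) :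
    degK (σ := σ) (R := R) K (algebraMap (MvPolynomial σ R) K f) = degVal f := by
  unfold degK
  exact Valuation.extendToLocalization_apply_map_apply _ _ _ _

end degree

end Pool.Agent.W432.FD
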