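import Mathlib
import Pool.Agent.W432.FD.Deg

set_option autoImplicit false

open WithZero

namespace Pool.Agent.W432.FD

section lcc

variable {R₀ : Type*} [CommRing R₀] {d : ℕ}

lemma exists_top {N : MvPolynomial (Fin d) R₀} (hN : N ≠ 0) :
    ∃ m ∈ N.support, (m.sum fun _ e => e) = N.totalDegree := by
  have hne : N.support.Nonempty := MvPolynomial.support_nonempty.mpr hN
  obtain ⟨m, hm, hmax⟩ := Finset.exists_max_image N.support (fun m => m.sum fun _ e => e) hne
  refine ⟨m, hm, le_antisymm (MvPolynomial.le_totalDegree hm) ?_⟩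
  exact Finset.sup_le fun b hb => hmax b hb

/-- A coefficient of top degree. -/
noncomputable def lcc (N : MvPolynomial (Fin d) R₀) : R₀ := by
  classical
  exact if h : N = 0 then 0 else N.coeff (exists_top h).choose

lemma lcc_ne {N : MvPolynomial (Fin d) R₀} (hN : N ≠ 0) : lcc N ≠ 0 := by
  unfold lcc
  rw [dif_neg hN]
  exact MvPolynomial.mem_support_iff.mp (exists_top hN).choose_spec.1

variable {κ : Type*} [Field κ] (θ : R₀ →+* κ)

lemma totalDegree_map_le' (N : MvPolynomial (Fin d) R₀) :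
    (MvPolynomial.map θ N).totalDegree ≤ N.totalDegree := by
  refine Finset.sup_le fun m hm => MvPolynomial.le_totalDegree ?_
  rw [MvPolynomial.mem_support_iff, MvPolynomial.coeff_map] at hm
  rw [MvPolynomial.mem_support_iff]
  intro h0
  rw [h0, map_zero] at hm
  exact hm rfl

lemma map_of_lcc {N : MvPolynomial (Fin d) R₀} (hN : N ≠ 0) (h : θ (lcc N) ≠ 0) :
    MvPolynomial.map θ N ≠ 0 ∧ (MvPolynomial.map θ N).totalDegree = N.totalDegree := by
  unfold lcc at h
  rw [dif_neg hN] at h
  set m := (exists_top hN).choose with hm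
  obtain ⟨-, hm2⟩ := (exists_top hN).choose_spec
  rw [← hm] at hm2
  have h1 : m ∈ (MvPolynomial.map θ N).support := by
    rw [MvPolynomial.mem_support_iff, MvPolynomial.coeff_map]
    exact h
  refine ⟨fun h0 => ?_, le_antisymm (totalDegree_map_le' θ N) ?_⟩
  · rw [h0] at h1
    simp at h1
  · rw [← hm2]
    exact MvPolynomial.le_totalDegree h1

end lcc

section loc

variable {R₀ : Type*} [CommRing R₀] [IsDomain R₀] {d : ℕ} (f : MvPolynomial (Fin d) R₀)

/-- The inclusion of `S[1/f]` into the field of fractions. -/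
noncomputable def jf (hf : f ≠ 0) :
    Localization.Away f →+* FractionRing (MvPolynomial (Fin d) R₀) :=
  IsLocalization.Away.lift f (g := algebraMap _ (FractionRing (MvPolynomial (Fin d) R₀))) (by
    rw [isUnit_iff_ne_zero, Ne, map_eq_zero_iff _ (IsFractionRing.injective _ _)]
    exact hf)

lemma jf_algebraMap (hf : f ≠ 0) (a : MvPolynomial (Fin d) R₀) :
    jf f hf (algebraMap _ _ a) = algebraMap _ _ a := by
  unfold jf
  exact IsLocalization.Away.lift_eq _ _ _

lemma exists_num (z : Localization.Away f) : ∃ (e : ℕ) (N : MvPolynomial (Fin d) R₀),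
    z * algebraMap _ (Localization.Away f) f ^ e = algebraMap _ _ N := by
  obtain ⟨⟨N, ⟨_, e, rfl⟩⟩, h⟩ := IsLocalization.surj (Submonoid.powers f) z
  refine ⟨e, N, ?_⟩
  simpa using h

lemma jf_injective (hf : f ≠ 0) : Function.Injective (jf f hf) := by
  rw [injective_iff_map_eq_zero]
  intro z hz
  obtain ⟨e, N, h⟩ := exists_num f z
  have h1 := congrArg (jf f hf) h
  rw [map_mul, hz, zero_mul, jf_algebraMap] at h1
  have h2 : N = 0 := (map_eq_zero_iff _ (IsFractionRing.injective (MvPolynomial (Fin d) R₀)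
    (FractionRing (MvPolynomial (Fin d) R₀)))).mp h1.symm
  rw [h2, map_zero] at h
  have h3 : IsUnit (algebraMap (MvPolynomial (Fin d) R₀) (Localization.Away f) f ^ e) :=
    (IsLocalization.Away.algebraMap_isUnit f).pow e
  exact (h3.mul_left_eq_zero).mp h

variable {κ : Type*} [Field κ] (θ : R₀ →+* κ)

/-- The reduction of `S[1/f]` at a point where `f` is nonzero. -/
noncomputable def pif (hθ : MvPolynomial.map θ f ≠ 0) :
    Localization.Away f →+* FractionRing (MvPolynomial (Fin d) κ) :=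
  IsLocalization.Away.lift f
    (g := (algebraMap _ (FractionRing (MvPolynomial (Fin d) κ))).comp (MvPolynomial.map θ)) (by
      rw [isUnit_iff_ne_zero, RingHom.comp_apply, Ne,
        map_eq_zero_iff _ (IsFractionRing.injective _ _)]
      exact hθ)

lemma pif_algebraMap (hθ : MvPolynomial.map θ f ≠ 0) (a : MvPolynomial (Fin d) R₀) :
    pif f θ hθ (algebraMap _ _ a) = algebraMap _ _ (MvPolynomial.map θ a) := by
  unfold pif
  exact IsLocalization.Away.lift_eq _ _ _

/-- The degree valuation on the fraction field of a polynomial ring. -/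
noncomputable abbrev dv (R : Type*) [CommRing R] [IsDomain R] (d : ℕ) :
    Valuation (FractionRing (MvPolynomial (Fin d) R)) ℤᵐ⁰ :=
  degK (σ := Fin d) (R := R) (FractionRing (MvPolynomial (Fin d) R))

lemma dv_compare {f} (hf : f ≠ 0) (hθ : MvPolynomial.map θ f ≠ 0)
    (hdeg : (MvPolynomial.map θ f).totalDegree = f.totalDegree) (z : Localization.Away f) :
    dv κ d (pif f θ hθ z) ≤ dv R₀ d (jf f hf z) := by
  obtain ⟨e, N, h⟩ := exists_num f z
  have h1 := congrArg (dv R₀ d) (congrArg (jf f hf) h)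
  have h2 := congrArg (dv κ d) (congrArg (pif f θ hθ) h)
  rw [map_mul, map_mul, map_pow, map_pow, jf_algebraMap, jf_algebraMap, degK_algebraMap,
    degK_algebraMap] at h1
  rw [map_mul, map_mul, map_pow, map_pow, pif_algebraMap, pif_algebraMap, degK_algebraMap,
    degK_algebraMap] at h2
  have h3 : degVal (MvPolynomial.map θ N) ≤ degVal N := by
    by_cases h4 : MvPolynomial.map θ N = 0
    · rw [h4, map_zero]; exact zero_le
    · have h5 : N ≠ 0 := by rintro rfl; simp at h4
      rw [degVal_of_ne h4, degVal_of_ne h5, exp_le_exp]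
      exact_mod_cast totalDegree_map_le' θ N
  have h6 : degVal (MvPolynomial.map θ f) = degVal f := by
    rw [degVal_of_ne hθ, degVal_of_ne hf, hdeg]
  rw [h6] at h2
  have h7 : 0 < (degVal f : ℤᵐ⁰) ^ e := by
    rw [degVal_of_ne hf]
    exact pow_pos (by simp) _
  rw [← h1, ← h2] at h3
  exact le_of_mul_le_mul_right h3 h7

lemma dv_eq {f} (hf : f ≠ 0) {z : Localization.Away f} (hz : z ≠ 0) :
    ∃ x : R₀, x ≠ 0 ∧ ∀ {κ : Type*} [Field κ] (θ : R₀ →+* κ) (hθ : MvPolynomial.map θ f ≠ 0),
      (MvPolynomial.map θ f).totalDegree = f.totalDegree → θ x ≠ 0 →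
      dv κ d (pif f θ hθ z) = dv R₀ d (jf f hf z) ∧ pif f θ hθ z ≠ 0 := by
  obtain ⟨e, N, h⟩ := exists_num f z
  have hN : N ≠ 0 := by
    rintro rfl
    rw [map_zero] at h
    have h3 : IsUnit (algebraMap (MvPolynomial (Fin d) R₀) (Localization.Away f) f ^ e) :=
      (IsLocalization.Away.algebraMap_isUnit f).pow e
    exact hz ((h3.mul_left_eq_zero).mp h)
  refine ⟨lcc N, lcc_ne hN, ?_⟩
  intro κ _ θ hθ hdeg hx
  obtain ⟨h4, h5⟩ := map_of_lcc θ hN hx
  have h1 := congrArg (dv R₀ d) (congrArg (jf f hf) h)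
  have h2 := congrArg (dv κ d) (congrArg (pif f θ hθ) h)
  have h2' := congrArg (pif f θ hθ) h
  rw [map_mul, map_mul, map_pow, map_pow, jf_algebraMap, jf_algebraMap, degK_algebraMap,
    degK_algebraMap] at h1
  rw [map_mul, map_mul, map_pow, map_pow, pif_algebraMap, pif_algebraMap, degK_algebraMap,
    degK_algebraMap] at h2
  have h6 : degVal (MvPolynomial.map θ f) = degVal f := by
    rw [degVal_of_ne hθ, degVal_of_ne hf, hdeg]
  have h3 : degVal (MvPolynomial.map θ N) = degVal N := by
    rw [degVal_of_ne h4, degVal_of_ne hN, h5]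
  have h7 : (degVal f : ℤᵐ⁰) ^ e ≠ 0 := by
    rw [degVal_of_ne hf]
    exact pow_ne_zero _ (by simp)
  rw [h6, h3, ← h1] at h2
  refine ⟨mul_right_cancel₀ h7 h2, fun h0 => ?_⟩
  rw [map_mul, h0, zero_mul, pif_algebraMap] at h2'
  exact h4 ((map_eq_zero_iff _ (IsFractionRing.injective (MvPolynomial (Fin d) κ)
    (FractionRing (MvPolynomial (Fin d) κ)))).mp h2'.symm)

/-- Finitely many fractions have a common denominator. -/
lemma exists_den {ι : Type*} [Finite ι] (z : ι → FractionRing (MvPolynomial (Fin d) R₀)) :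
    ∃ (f : MvPolynomial (Fin d) R₀) (hf : f ≠ 0), ∀ i, ∃ w, jf f hf w = z i := by
  classical
  cases nonempty_fintype ι
  obtain ⟨⟨b, hb⟩, h⟩ := IsLocalization.exist_integer_multiples_of_finset
    (nonZeroDivisors (MvPolynomial (Fin d) R₀)) (Finset.univ.image z)
  have hb0 : b ≠ 0 := nonZeroDivisors.ne_zero hb
  refine ⟨b, hb0, fun i => ?_⟩
  obtain ⟨a, ha⟩ := h (z i) (Finset.mem_image_of_mem _ (Finset.mem_univ i))
  have hunit := IsLocalization.Away.algebraMap_isUnit (S := Localization.Away b) b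
  obtain ⟨u, hu⟩ := hunit
  refine ⟨algebraMap _ _ a * (u⁻¹ : (Localization.Away b)ˣ), ?_⟩
  have hbQ : algebraMap (MvPolynomial (Fin d) R₀) (FractionRing (MvPolynomial (Fin d) R₀)) b ≠ 0 := by
    rw [Ne, map_eq_zero_iff _ (IsFractionRing.injective _ _)]
    exact hb0
  apply mul_left_cancel₀ hbQ
  have h1 : algebraMap (MvPolynomial (Fin d) R₀) (FractionRing (MvPolynomial (Fin d) R₀)) b =
      jf b hb0 (u : Localization.Away b) := by rw [hu, jf_algebraMap]
  rw [map_mul, jf_algebraMap, h1, mul_left_comm, ← map_mul, Units.mul_inv, map_one, mul_one,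
    ha, ← h1]
  rw [Algebra.smul_def]

end loc

end Pool.Agent.W432.FD
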