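import Mathlib

set_option autoImplicit false

open Finset

namespace Pool.Agent.W432.FD

section growth

variable {L : Type*} [Field L] {Γ : Type*} [LinearOrderedCommGroupWithZero Γ]
  (v : Valuation L Γ) {M : Type*} [AddCommGroup M] [Module L M] {dl : L → L} {D : M → M}

/-- Coefficients of `D (∑ c t D^t m)`. -/
def nextc (dl : L → L) (a : ℕ → L) (n : ℕ) (c : ℕ → L) (t : ℕ) : L :=
  dl (c t) + (if t = 0 then 0 else c (t - 1)) + a t * c n

lemma D_sum (hadd : ∀ x y, D (x + y) = D x + D y)
    (hleib : ∀ (f : L) (x : M), D (f • x) = dl f • x + f • D x)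
    {m : M} {n : ℕ} {a : ℕ → L}
    (hrel : D^[n + 1] m = ∑ t ∈ range (n + 1), a t • D^[t] m) (c : ℕ → L) :
    D (∑ t ∈ range (n + 1), c t • D^[t] m) =
      ∑ t ∈ range (n + 1), nextc dl a n c t • D^[t] m := by
  have h0 : D 0 = 0 := by
    have := hadd 0 0
    rw [add_zero] at this
    exact left_eq_add.mp this
  have hsum : ∀ (s : Finset ℕ) (g : ℕ → M), D (∑ t ∈ s, g t) = ∑ t ∈ s, D (g t) := by
    intro s g
    classical
    induction s using Finset.induction_on with
    | empty => simpa using h0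
    | insert x s hx ih => rw [sum_insert hx, sum_insert hx, hadd, ih]
  rw [hsum]
  have h1 : ∀ t ∈ range (n + 1), D (c t • D^[t] m) = dl (c t) • D^[t] m + c t • D^[t + 1] m := by
    intro t _
    rw [hleib, Function.iterate_succ_apply']
  rw [sum_congr rfl h1, sum_add_distrib, sum_range_succ (fun t => c t • D^[t + 1] m), hrel,
    smul_sum]
  have h2 : ∑ t ∈ range n, c t • D^[t + 1] m =
      ∑ t ∈ range (n + 1), (if t = 0 then 0 else c (t - 1)) • D^[t] m := by
    rw [sum_range_succ']
    simp
  rw [h2, ← sum_add_distrib, ← sum_add_distrib]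
  refine sum_congr rfl fun t _ => ?_
  unfold nextc
  rw [smul_smul, add_smul, add_smul, mul_comm (c n)]
  abel

/-- If `D^N m = 0`, the coefficients of the minimal relation of `m` are integral. -/
theorem coeff_le_one (hadd : ∀ x y, D (x + y) = D x + D y)
    (hleib : ∀ (f : L) (x : M), D (f • x) = dl f • x + f • D x)
    (hdl : ∀ f, v (dl f) ≤ v f) {m : M} {n : ℕ} {a : ℕ → L}
    (hli : ∀ c : ℕ → L, ∑ t ∈ range (n + 1), c t • D^[t] m = 0 → ∀ t ∈ range (n + 1), c t = 0)
    (hrel : D^[n + 1] m = ∑ t ∈ range (n + 1), a t • D^[t] m) {N : ℕ} (hN : D^[N] m = 0) :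
    ∀ t ∈ range (n + 1), v (a t) ≤ 1 := by
  by_contra! hcon
  obtain ⟨t₂, ht₂, hbig⟩ := hcon
  set q : ℕ := (n + 1).factorial with hq
  have hq0 : 0 < q := Nat.factorial_pos _
  have hdvd : ∀ t ∈ range (n + 1), (n + 1 - t) ∣ q := by
    intro t ht
    rw [mem_range] at ht
    exact Nat.dvd_factorial (by omega) (by omega)
  let f : ℕ → Γ := fun t => v (a t) ^ (q / (n + 1 - t))
  obtain ⟨t₁, ht₁, hmax⟩ := exists_max_image (range (n + 1)) f ⟨t₂, ht₂⟩
  set γ : Γ := f t₁ with hγ
  have hf : ∀ t ∈ range (n + 1), v (a t) ^ q = f t ^ (n + 1 - t) := by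
    intro t ht
    simp only [f]
    rw [← pow_mul, Nat.div_mul_cancel (hdvd t ht)]
  have hγ1 : 1 < γ := by
    refine lt_of_lt_of_le ?_ (hmax t₂ ht₂)
    simp only [f]
    refine one_lt_pow₀ hbig ?_
    have h1 := Nat.div_mul_cancel (hdvd t₂ ht₂)
    intro h0
    rw [h0, zero_mul] at h1
    omega
  have hγ0 : 0 < γ := lt_trans zero_lt_one hγ1
  have hle : ∀ t ∈ range (n + 1), v (a t) ^ q * γ ^ t ≤ γ ^ (n + 1) := by
    intro t ht
    rw [hf t ht]
    have h1 : n + 1 = (n + 1 - t) + t := by rw [mem_range] at ht; omega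
    conv_rhs => rw [h1, pow_add]
    gcongr
    exact hmax t ht
  have heq : v (a t₁) ^ q * γ ^ t₁ = γ ^ (n + 1) := by
    rw [hf t₁ ht₁, ← hγ, ← pow_add]
    congr 1
    rw [mem_range] at ht₁; omega
  classical
  -- the smallest index with equality
  have hex : ∃ t, t ∈ range (n + 1) ∧ v (a t) ^ q * γ ^ t = γ ^ (n + 1) := ⟨t₁, ht₁, heq⟩
  set t₀ := Nat.find hex with ht₀
  obtain ⟨ht₀r, ht₀eq⟩ := Nat.find_spec hex
  rw [← ht₀] at ht₀r ht₀eq
  have hlt : ∀ t < t₀, v (a t) ^ q * γ ^ t < γ ^ (n + 1) := by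
    intro t ht
    have hr : t ∈ range (n + 1) := by rw [mem_range] at ht₀r ⊢; omega
    refine lt_of_le_of_ne (hle t hr) fun h => ?_
    exact Nat.find_min hex ht ⟨hr, h⟩
  have hr₀ := mem_range.mp ht₀r
  -- invariant
  have key : ∀ j : ℕ, ∃ (c : ℕ → L) (W : Γ), 0 < W ∧ (∀ t ∈ range (n + 1), v (c t) ^ q * γ ^ t ≤ W) ∧
      (∀ t < t₀, v (c t) ^ q * γ ^ t < W) ∧ (∃ t ∈ range (n + 1), v (c t) ^ q * γ ^ t = W) ∧
      D^[j + t₀] m = ∑ t ∈ range (n + 1), c t • D^[t] m := by
    intro j
    induction j with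
    | zero =>
      refine ⟨fun t => if t = t₀ then 1 else 0, γ ^ t₀, pow_pos hγ0 _, ?_, ?_, ?_, ?_⟩
      · intro t _
        by_cases h : t = t₀
        · simp [h]
        · simp [h, hq0.ne']
      · intro t ht
        have h : t ≠ t₀ := ht.ne
        simp [h, hq0.ne', pow_pos hγ0]
      · exact ⟨t₀, ht₀r, by simp⟩
      · rw [zero_add, Finset.sum_eq_single t₀]
        · simp
        · intro b _ hb; simp [hb]
        · intro h; exact absurd ht₀r h
    | succ j ih =>
      obtain ⟨c, W, hW, h1, h2, ⟨t₃, ht₃, h3⟩, h4⟩ := ih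
      have hnr : n ∈ range (n + 1) := self_mem_range_succ n
      have hWγ : W < W * γ := by
        exact lt_mul_of_one_lt_right hW hγ1
      have hWγ0 : 0 < W * γ := mul_pos hW hγ0
      -- sizes of the three parts
      have p1 : ∀ t ∈ range (n + 1), v (dl (c t)) ^ q * γ ^ t < W * γ := by
        intro t ht
        refine lt_of_le_of_lt ?_ hWγ
        refine le_trans ?_ (h1 t ht)
        gcongr
        exact hdl _
      have p2 : ∀ t, 0 < t → t ∈ range (n + 1) → v (c (t - 1)) ^ q * γ ^ t =
          (v (c (t - 1)) ^ q * γ ^ (t - 1)) * γ := by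
        intro t ht0 _
        obtain ⟨u, rfl⟩ : ∃ u, t = u + 1 := ⟨t - 1, by omega⟩
        simp only [Nat.add_sub_cancel, pow_succ, mul_assoc]
      have p3 : ∀ t, v (a t * c n) ^ q * γ ^ t * γ ^ n =
          (v (a t) ^ q * γ ^ t) * (v (c n) ^ q * γ ^ n) := by
        intro t
        rw [map_mul, mul_pow, mul_assoc, mul_mul_mul_comm]
      have hγn : 0 < γ ^ n := pow_pos hγ0 n
      have p3le : ∀ t ∈ range (n + 1), v (a t * c n) ^ q * γ ^ t ≤ W * γ := by
        intro t ht
        have h5 : v (a t * c n) ^ q * γ ^ t * γ ^ n ≤ W * γ * γ ^ n := by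
          rw [p3 t]
          calc (v (a t) ^ q * γ ^ t) * (v (c n) ^ q * γ ^ n) ≤ γ ^ (n + 1) * W := by
                gcongr
                · exact hle t ht
                · exact h1 n hnr
            _ = W * γ * γ ^ n := by rw [pow_succ]; ac_rfl
        exact le_of_mul_le_mul_right h5 hγn
      have p3lt : ∀ t < t₀, v (a t * c n) ^ q * γ ^ t < W * γ := by
        intro t ht
        have h5 : v (a t * c n) ^ q * γ ^ t * γ ^ n < W * γ * γ ^ n := by
          rw [p3 t]
          calc (v (a t) ^ q * γ ^ t) * (v (c n) ^ q * γ ^ n) ≤ (v (a t) ^ q * γ ^ t) * W := by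
                gcongr
                exact h1 n hnr
            _ < γ ^ (n + 1) * W := by
                exact mul_lt_mul_of_pos_right (hlt t ht) hW
            _ = W * γ * γ ^ n := by rw [pow_succ]; ac_rfl
        exact lt_of_mul_lt_mul_right h5 hγn.le
      have p3lt' : v (c n) ^ q * γ ^ n < W → ∀ t ∈ range (n + 1),
          v (a t * c n) ^ q * γ ^ t < W * γ := by
        intro hcn t ht
        have h5 : v (a t * c n) ^ q * γ ^ t * γ ^ n < W * γ * γ ^ n := by
          rw [p3 t]
          calc (v (a t) ^ q * γ ^ t) * (v (c n) ^ q * γ ^ n) ≤ γ ^ (n + 1) * (v (c n) ^ q * γ ^ n) := by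
                gcongr
                exact hle t ht
            _ < γ ^ (n + 1) * W := by
                exact mul_lt_mul_of_pos_left hcn (pow_pos hγ0 _)
            _ = W * γ * γ ^ n := by rw [pow_succ]; ac_rfl
        exact lt_of_mul_lt_mul_right h5 hγn.le
      -- adding
      have addle : ∀ (x y : L) (t : ℕ) (Z : Γ), v x ^ q * γ ^ t ≤ Z → v y ^ q * γ ^ t ≤ Z →
          v (x + y) ^ q * γ ^ t ≤ Z := by
        intro x y t Z hx hy
        rcases le_max_iff.mp (v.map_add x y) with h | h
        · exact le_trans (by gcongr) hx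
        · exact le_trans (by gcongr) hy
      have addlt : ∀ (x y : L) (t : ℕ) (Z : Γ), v x ^ q * γ ^ t < Z → v y ^ q * γ ^ t < Z →
          v (x + y) ^ q * γ ^ t < Z := by
        intro x y t Z hx hy
        rcases le_max_iff.mp (v.map_add x y) with h | h
        · exact lt_of_le_of_lt (by gcongr) hx
        · exact lt_of_le_of_lt (by gcongr) hy
      have addeq : ∀ (x y : L) (t : ℕ) (Z : Γ), v x ^ q * γ ^ t < Z → v y ^ q * γ ^ t = Z →
          v (x + y) ^ q * γ ^ t = Z := by
        intro x y t Z hx hy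
        have hγt : 0 < γ ^ t := pow_pos hγ0 t
        have h5 : v x < v y := by
          by_contra hle'
          rw [not_lt] at hle'
          have : v y ^ q * γ ^ t ≤ v x ^ q * γ ^ t := by gcongr
          rw [hy] at this
          exact absurd (lt_of_le_of_lt this hx) (lt_irrefl _)
        rw [v.map_add_eq_of_lt_right h5, hy]
      have part2le : ∀ t ∈ range (n + 1),
          v (if t = 0 then 0 else c (t - 1)) ^ q * γ ^ t ≤ W * γ := by
        intro t ht
        by_cases h0 : t = 0
        · simp [h0, hq0.ne']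
        · rw [if_neg h0, p2 t (by omega) ht]
          have ht' : t - 1 ∈ range (n + 1) := by rw [mem_range] at ht ⊢; omega
          gcongr
          exact h1 _ ht'
      refine ⟨nextc dl a n c, W * γ, hWγ0, ?_, ?_, ?_, ?_⟩
      · intro t ht
        exact addle _ _ _ _ (addle _ _ _ _ (p1 t ht).le (part2le t ht)) (p3le t ht)
      · intro t ht
        have htr : t ∈ range (n + 1) := by rw [mem_range]; omega
        refine addlt _ _ _ _ (addlt _ _ _ _ (p1 t htr) ?_) (p3lt t ht)
        by_cases h0 : t = 0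
        · simpa [h0, hq0.ne'] using hWγ0
        · rw [if_neg h0, p2 t (by omega) htr]
          exact mul_lt_mul_of_pos_right (h2 _ (by omega)) hγ0
      · by_cases hcn : v (c n) ^ q * γ ^ n = W
        · -- the coefficient at `t₀`
          refine ⟨t₀, ht₀r, ?_⟩
          refine addeq _ _ _ _ (addlt _ _ _ _ (p1 t₀ ht₀r) ?_) ?_
          · by_cases h0 : t₀ = 0
            · rw [if_pos h0, map_zero, zero_pow hq0.ne', zero_mul]
              exact hWγ0
            · rw [if_neg h0, p2 t₀ (by omega) ht₀r]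
              exact mul_lt_mul_of_pos_right (h2 _ (by omega)) hγ0
          · have h5 := p3 t₀
            rw [ht₀eq, hcn] at h5
            have h6 : v (a t₀ * c n) ^ q * γ ^ t₀ * γ ^ n = W * γ * γ ^ n := by
              rw [h5, pow_succ]; ac_rfl
            exact mul_right_cancel₀ hγn.ne' h6
        · have hcn' : v (c n) ^ q * γ ^ n < W := lt_of_le_of_ne (h1 n hnr) hcn
          have ht₃n : t₃ ≠ n := by rintro rfl; exact hcn h3
          have ht₃' : t₃ + 1 ∈ range (n + 1) := by rw [mem_range] at ht₃ ⊢; omega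
          refine ⟨t₃ + 1, ht₃', ?_⟩
          unfold nextc
          rw [if_neg (Nat.succ_ne_zero t₃), Nat.add_sub_cancel, add_assoc]
          rw [add_comm (c t₃), ← add_assoc]
          refine addeq _ _ _ _ (addlt _ _ _ _ (p1 _ ht₃') (p3lt' hcn' _ ht₃')) ?_
          rw [pow_succ, ← mul_assoc, h3]
      · rw [show j + 1 + t₀ = (j + t₀) + 1 by ring, Function.iterate_succ_apply', h4]
        exact D_sum hadd hleib hrel c
  obtain ⟨c, W, hW, -, -, ⟨t, ht, h3⟩, h4⟩ := key N
  have h0 : D 0 = 0 := by
    have := hadd 0 0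
    rw [add_zero] at this
    exact left_eq_add.mp this
  have h5 : D^[N + t₀] m = 0 := by
    rw [add_comm, Function.iterate_add_apply, hN]
    exact Function.iterate_fixed h0 t₀
  have h6 := hli c (by rw [← h4, h5]) t ht
  rw [h6, map_zero, zero_pow hq0.ne', zero_mul] at h3
  exact hW.ne h3

/-- With an integral relation all iterates stay in the integral span of the first ones. -/
theorem iter_bound (hadd : ∀ x y, D (x + y) = D x + D y)
    (hleib : ∀ (f : L) (x : M), D (f • x) = dl f • x + f • D x)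
    (hdl : ∀ f, v (dl f) ≤ v f) {m : M} {n : ℕ} {a : ℕ → L}
    (hrel : D^[n + 1] m = ∑ t ∈ range (n + 1), a t • D^[t] m)
    (ha : ∀ t ∈ range (n + 1), v (a t) ≤ 1) (j : ℕ) :
    ∃ c : ℕ → L, (∀ t ∈ range (n + 1), v (c t) ≤ 1) ∧
      D^[j] m = ∑ t ∈ range (n + 1), c t • D^[t] m := by
  induction j with
  | zero =>
    refine ⟨fun t => if t = 0 then 1 else 0, fun t _ => ?_, ?_⟩
    · by_cases h : t = 0 <;> simp [h]
    · rw [Finset.sum_eq_single 0]
      · simp
      · intro b _ hb; simp [hb]
      · intro h; exact absurd (mem_range.mpr (Nat.succ_pos n)) h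
  | succ j ih =>
    obtain ⟨c, hc, hcs⟩ := ih
    refine ⟨nextc dl a n c, fun t ht => ?_, ?_⟩
    · refine (v.map_add _ _).trans (max_le ((v.map_add _ _).trans (max_le ?_ ?_)) ?_)
      · exact (hdl _).trans (hc t ht)
      · by_cases h0 : t = 0
        · simp [h0]
        · rw [if_neg h0]
          exact hc _ (by rw [mem_range] at ht ⊢; omega)
      · rw [map_mul]
        exact mul_le_one' (ha t ht) (hc n (self_mem_range_succ n))
    · rw [Function.iterate_succ_apply', hcs]
      exact D_sum hadd hleib hrel c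

/-- A nonzero vector has a minimal relation. -/
theorem exists_minimal [FiniteDimensional L M] {m : M} (hm : m ≠ 0) :
    ∃ (n : ℕ) (a : ℕ → L), n + 1 ≤ Module.finrank L M ∧
      D^[n + 1] m = ∑ t ∈ range (n + 1), a t • D^[t] m ∧
      (∀ c : ℕ → L, ∑ t ∈ range (n + 1), c t • D^[t] m = 0 → ∀ t ∈ range (n + 1), c t = 0) := by
  classical
  -- independence up to the first relation
  have hind : ∀ k : ℕ, (∀ j < k, ¬ ∃ a : ℕ → L, D^[j] m = ∑ t ∈ range j, a t • D^[t] m) →
      ∀ c : ℕ → L, ∑ t ∈ range k, c t • D^[t] m = 0 → ∀ t ∈ range k, c t = 0 := by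
    intro k
    induction k with
    | zero => intro _ c _ t ht; simp at ht
    | succ k ih =>
      intro hk c hc t ht
      have hck : c k = 0 := by
        by_contra hne
        apply hk k (Nat.lt_succ_self k)
        refine ⟨fun t => -(c k)⁻¹ * c t, ?_⟩
        rw [sum_range_succ] at hc
        have h1 : c k • D^[k] m = -∑ t ∈ range k, c t • D^[t] m := by
          rw [eq_neg_iff_add_eq_zero, add_comm]; exact hc
        have h2 : D^[k] m = (c k)⁻¹ • (c k • D^[k] m) := by
          rw [smul_smul, inv_mul_cancel₀ hne, one_smul]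
        rw [h2, h1, smul_neg, smul_sum, ← sum_neg_distrib]
        refine sum_congr rfl fun u _ => ?_
        rw [smul_smul, ← neg_smul]
        simp only [neg_mul]
      rw [sum_range_succ, hck, zero_smul, add_zero] at hc
      rw [mem_range] at ht
      rcases Nat.lt_succ_iff_lt_or_eq.mp ht with h | h
      · exact ih (fun j hj => hk j (hj.trans (Nat.lt_succ_self k))) c hc t (mem_range.mpr h)
      · rw [h]; exact hck
  have hex : ∃ k, ∃ a : ℕ → L, D^[k] m = ∑ t ∈ range k, a t • D^[t] m := by
    by_contra hno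
    push Not at hno
    have h1 := hind (Module.finrank L M + 1) (fun j _ ⟨a, ha⟩ => hno j a ha)
    have h2 : LinearIndependent L (fun t : Fin (Module.finrank L M + 1) => D^[t.val] m) := by
      rw [Fintype.linearIndependent_iff]
      intro g hg i
      have h3 := h1 (fun t => if h : t < Module.finrank L M + 1 then g ⟨t, h⟩ else 0) (by
        rw [← hg, Finset.sum_range]
        refine sum_congr rfl fun u _ => ?_
        simp [u.2]) i.val (mem_range.mpr i.2)
      simpa [i.2] using h3
    have h3 := LinearIndependent.fintype_card_le_finrank h2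
    rw [Fintype.card_fin] at h3
    omega
  set k := Nat.find hex with hk
  obtain ⟨a, ha⟩ := Nat.find_spec hex
  rw [← hk] at ha
  have hmin : ∀ j < k, ¬ ∃ a : ℕ → L, D^[j] m = ∑ t ∈ range j, a t • D^[t] m :=
    fun j hj => Nat.find_min hex hj
  have hk0 : k ≠ 0 := by
    intro h0
    rw [h0] at ha
    simp at ha
    exact hm ha
  obtain ⟨n, hn⟩ : ∃ n, k = n + 1 := ⟨k - 1, by omega⟩
  rw [hn] at ha hmin
  have hli := hind (n + 1) hmin
  refine ⟨n, a, ?_, ha, hli⟩
  have h2 : LinearIndependent L (fun t : Fin (n + 1) => D^[t.val] m) := by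
    rw [Fintype.linearIndependent_iff]
    intro g hg i
    have h3 := hli (fun t => if h : t < n + 1 then g ⟨t, h⟩ else 0) (by
      rw [← hg, Finset.sum_range]
      refine sum_congr rfl fun u _ => ?_
      simp [u.2]) i.val (mem_range.mpr i.2)
    simpa [i.2] using h3
  have h3 := LinearIndependent.fintype_card_le_finrank h2
  rwa [Fintype.card_fin] at h3

/-- Coordinate form: iterates of a connection with `D^N m = 0` have bounded size. -/
theorem coord_bound {ι : Type*} [Fintype ι] (dl : Derivation ℤ L L)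
    (hdl : ∀ f, v (dl f) ≤ v f) (G : Matrix ι ι L) {β μ : Γ} (hβ : 1 ≤ β)
    (hG : ∀ i j, v (G i j) ≤ β) {m : ι → L} (hm : ∀ i, v (m i) ≤ μ) {N : ℕ}
    (hN : (fun y : ι → L => fun i => dl (y i) - G.mulVec y i)^[N] m = 0) (j : ℕ) (i : ι) :
    v ((fun y : ι → L => fun i => dl (y i) - G.mulVec y i)^[j] m i) ≤
      β ^ Fintype.card ι * μ := by
  set D : (ι → L) → (ι → L) := fun y i => dl (y i) - G.mulVec y i with hD
  have hadd : ∀ x y, D (x + y) = D x + D y := by
    intro x y
    ext1 i
    simp only [hD, Pi.add_apply, map_add, Matrix.mulVec_add]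
    ring
  have hleib : ∀ (f : L) (x : ι → L), D (f • x) = dl f • x + f • D x := by
    intro f x
    ext1 i
    simp only [hD, Pi.add_apply, Pi.smul_apply, smul_eq_mul, Derivation.leibniz,
      Matrix.mulVec_smul]
    ring
  have hβ0 : 0 < β := lt_of_lt_of_le zero_lt_one hβ
  -- one step
  have hstep : ∀ (y : ι → L) (Z : Γ), (∀ i, v (y i) ≤ Z) → ∀ i, v (D y i) ≤ β * Z := by
    intro y Z hy i
    have hZ : v (y i) ≤ β * Z := (hy i).trans (le_mul_of_one_le_left' hβ)
    refine (v.map_sub _ _).trans (max_le ((hdl _).trans hZ) ?_)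
    simp only [Matrix.mulVec, dotProduct]
    refine v.map_sum_le fun l _ => ?_
    rw [map_mul]
    exact mul_le_mul' (hG i l) (hy l)
  have hsteps : ∀ (t : ℕ) (i : ι), v (D^[t] m i) ≤ β ^ t * μ := by
    intro t
    induction t with
    | zero => intro i; simpa using hm i
    | succ t ih =>
      intro i
      rw [Function.iterate_succ_apply', pow_succ']
      have := hstep _ _ ih i
      rwa [← mul_assoc] at this
  by_cases hm0 : m = 0
  · have h0 : D 0 = 0 := by
      have := hadd 0 0
      rw [add_zero] at this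
      exact left_eq_add.mp this
    rw [hm0, Function.iterate_fixed h0 j, Pi.zero_apply, map_zero]
    exact zero_le
  obtain ⟨n, a, hn, hrel, hli⟩ := exists_minimal (L := L) (D := D) hm0
  rw [Module.finrank_fintype_fun_eq_card] at hn
  have ha := coeff_le_one v hadd hleib hdl hli hrel hN
  obtain ⟨c, hc, hcs⟩ := iter_bound v hadd hleib hdl hrel ha j
  rw [hcs, Finset.sum_apply]
  refine v.map_sum_le fun t ht => ?_
  rw [Pi.smul_apply, smul_eq_mul, map_mul]
  have h1 : v (D^[t] m i) ≤ β ^ Fintype.card ι * μ := by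
    refine (hsteps t i).trans ?_
    refine mul_le_mul' (pow_le_pow_right₀ hβ ?_) le_rfl
    rw [mem_range] at ht
    omega
  calc v (c t) * v (D^[t] m i) ≤ 1 * (β ^ Fintype.card ι * μ) := mul_le_mul' (hc t ht) h1
    _ = _ := one_mul _

end growth

end Pool.Agent.W432.FD
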