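import Mathlib
import Pool.Agent.W432.PC.Ddx
import Pool.Agent.W432.FD.Growth
import Pool.Agent.W432.FD.Deg

set_option autoImplicit false

open Polynomial
open Pool.Agent.W432.PC

namespace Pool.Agent.W432.FD

section defs

/-- The connection `∇ = d/dx - T⁻¹ M` on `k(x) ^ r`. -/
noncomputable def conn {k : Type*} [Field k] {r : ℕ} (T : k[X]) (M : Matrix (Fin r) (Fin r) k[X])
    (y : Fin r → RatFunc k) : Fin r → RatFunc k :=
  fun i => ddx k (y i) - (algebraMap k[X] (RatFunc k) T)⁻¹ *
    (M.map (algebraMap k[X] (RatFunc k))).mulVec y i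

/-- The `p`-curvature `ψ = ∇ ^ p`, `p = char k`, of `∇ = d/dx - T⁻¹ M` is nilpotent:
`ψ ^ r = 0` on `k(x) ^ r`. -/
def PNilp {k : Type*} [Field k] {r : ℕ} (T : k[X]) (M : Matrix (Fin r) (Fin r) k[X]) : Prop :=
  ∀ y : Fin r → RatFunc k, ((conn T M)^[ringChar k])^[r] y = 0

/-- The polynomial matrices `T ^ i ∇ ^ i (1)`. -/
noncomputable def QQ {R : Type*} [CommRing R] {r : ℕ} (T : R[X]) (M : Matrix (Fin r) (Fin r) R[X]) :
    ℕ → Matrix (Fin r) (Fin r) R[X]
  | 0 => 1
  | i + 1 => T • (QQ T M i).map derivative - ((i : R[X]) * derivative T) • QQ T M i - M * QQ T M i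

end defs

section map

variable {R S : Type*} [CommRing R] [CommRing S] {r : ℕ} (φ : R →+* S)

lemma QQ_map (T : R[X]) (M : Matrix (Fin r) (Fin r) R[X]) (i : ℕ) :
    (QQ T M i).map (mapRingHom φ) = QQ (T.map φ) (M.map (mapRingHom φ)) i := by
  induction i with
  | zero =>
    simp only [QQ]
    exact Matrix.map_one _ (map_zero _) (map_one _)
  | succ i ih =>
    have h1 : (QQ T M (i + 1)).map (mapRingHom φ) =
        (T.map φ) • ((QQ T M i).map (mapRingHom φ)).map derivative -
        ((i : S[X]) * derivative (T.map φ)) • (QQ T M i).map (mapRingHom φ) -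
        M.map (mapRingHom φ) * (QQ T M i).map (mapRingHom φ) := by
      rw [← Matrix.map_mul]
      ext1 a b
      simp only [QQ, Matrix.map_apply, Matrix.sub_apply, Matrix.smul_apply, smul_eq_mul,
        coe_mapRingHom, Polynomial.map_sub, Polynomial.map_mul, Polynomial.map_natCast]
      rw [Polynomial.derivative_map, Polynomial.derivative_map]
    rw [h1, ih]
    rfl

lemma QQ_succ_apply (T : R[X]) (M : Matrix (Fin r) (Fin r) R[X]) (i : ℕ) (l c : Fin r) :
    QQ T M (i + 1) l c = T * derivative (QQ T M i l c) -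
      (i : R[X]) * derivative T * QQ T M i l c - ∑ m, M l m * QQ T M i m c := by
  simp only [QQ, Matrix.sub_apply, Matrix.smul_apply, smul_eq_mul, Matrix.map_apply,
    Matrix.mul_apply]

end map

section field

variable {k : Type*} [Field k] {r : ℕ} {T : k[X]} {M : Matrix (Fin r) (Fin r) k[X]}

lemma conn_iterate (hT : T ≠ 0) (c : Fin r) (i : ℕ) (l : Fin r) :
    (algebraMap k[X] (RatFunc k) T) ^ i * (conn T M)^[i] (Pi.single c 1) l =
      algebraMap k[X] (RatFunc k) (QQ T M i l c) := by
  have ht : algebraMap k[X] (RatFunc k) T ≠ 0 := by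
    rw [Ne, map_eq_zero_iff _ (IsFractionRing.injective k[X] (RatFunc k))]
    exact hT
  induction i generalizing l with
  | zero =>
    simp only [pow_zero, one_mul, Function.iterate_zero, id_eq, QQ]
    by_cases h : l = c
    · subst h; simp
    · simp [h]
  | succ i ih =>
    rw [Function.iterate_succ_apply']
    set v := (conn T M)^[i] (Pi.single c 1) with hv
    set t := algebraMap k[X] (RatFunc k) T with ht'
    have h1 : (conn T M v) l = ddx k (v l) -
        t⁻¹ * ∑ m, algebraMap k[X] (RatFunc k) (M l m) * v m := rfl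
    have h2 : ddx k (algebraMap k[X] (RatFunc k) (QQ T M i l c)) =
        (i : RatFunc k) * t ^ (i - 1) * ddx k t * v l + t ^ i * ddx k (v l) := by
      rw [← ih l, Derivation.leibniz, Derivation.leibniz_pow]
      simp only [smul_eq_mul, nsmul_eq_mul]
      ring
    rw [ddx_algebraMap] at h2
    have h3 : ddx k t = algebraMap k[X] (RatFunc k) (derivative T) := ddx_algebraMap k _
    rw [QQ_succ_apply]
    simp only [map_sub, map_mul, map_sum, map_natCast]
    rw [h2, h3, h1, ← ht', mul_sub, ← ih l]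
    have h5 : t ^ (i + 1) * (t⁻¹ * ∑ m, algebraMap k[X] (RatFunc k) (M l m) * v m) =
        ∑ m, algebraMap k[X] (RatFunc k) (M l m) * algebraMap k[X] (RatFunc k) (QQ T M i m c) := by
      have h6 : t ^ (i + 1) * (t⁻¹ * ∑ m, algebraMap k[X] (RatFunc k) (M l m) * v m) =
          t ^ i * ∑ m, algebraMap k[X] (RatFunc k) (M l m) * v m := by
        rw [pow_succ, mul_assoc, ← mul_assoc t, mul_inv_cancel₀ ht, one_mul]
      rw [h6, Finset.mul_sum]
      refine Finset.sum_congr rfl fun m _ => ?_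
      rw [← ih m]
      ring
    rw [h5]
    have h6 : t * ((i : RatFunc k) * t ^ (i - 1) *
        algebraMap k[X] (RatFunc k) (derivative T) * v l + t ^ i * ddx k (v l)) =
        (i : RatFunc k) * algebraMap k[X] (RatFunc k) (derivative T) * (t ^ i * v l) +
        t ^ (i + 1) * ddx k (v l) := by
      cases i with
      | zero => simp
      | succ m =>
        simp only [Nat.add_sub_cancel]
        ring
    rw [h6]
    ring

lemma QQ_eq_zero_of_pnilp (hT : T ≠ 0) (h : PNilp T M) : QQ T M (ringChar k * r) = 0 := by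
  ext1 l c
  have h1 := conn_iterate (T := T) (M := M) hT c (ringChar k * r) l
  rw [Function.iterate_mul, h] at h1
  rw [Pi.zero_apply, mul_zero] at h1
  rw [Matrix.zero_apply]
  exact (map_eq_zero_iff _ (IsFractionRing.injective k[X] (RatFunc k))).mp h1.symm

end field

section emb

variable {R : Type*} [CommRing R] {r D : ℕ} {L : Type*} [Field L] (dl : Derivation ℤ L L)
  (Φ : R[X] →+* Matrix (Fin D) (Fin D) L)

/-- The matrix of the connection in the coordinates of a representation. -/
noncomputable def GG (τ : L) (M : Matrix (Fin r) (Fin r) R[X]) : Matrix (Fin r × Fin D) (Fin r × Fin D) L :=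
  fun a b => τ⁻¹ * Φ (M a.1 b.1) a.2 b.2

/-- The coordinates of a polynomial vector. -/
noncomputable def em (c : Fin D → L) (y : Fin r → R[X]) : Fin r × Fin D → L :=
  fun a => (Φ (y a.1)).mulVec c a.2

lemma em_iterate {τ : L} (hΦ : ∀ f i j, Φ (derivative f) i j = dl (Φ f i j)) {T : R[X]}
    (hT : Φ T = Matrix.scalar (Fin D) τ) (hτ : τ ≠ 0) {c : Fin D → L} (hc : ∀ i, dl (c i) = 0)
    (M : Matrix (Fin r) (Fin r) R[X]) (l : Fin r) (n : ℕ) (a : Fin r × Fin D) :
    τ ^ n * (fun y : Fin r × Fin D → L => fun i => dl (y i) - (GG Φ τ M).mulVec y i)^[n]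
      (em Φ c (fun l' => (1 : Matrix (Fin r) (Fin r) R[X]) l' l)) a =
      em Φ c (fun l' => QQ T M n l' l) a := by
  set DD : (Fin r × Fin D → L) → (Fin r × Fin D → L) :=
    fun y => fun i => dl (y i) - (GG Φ τ M).mulVec y i with hDD
  induction n generalizing a with
  | zero => simp [QQ]
  | succ n ih =>
    rw [Function.iterate_succ_apply']
    set w := DD^[n] (em Φ c (fun l' => (1 : Matrix (Fin r) (Fin r) R[X]) l' l)) with hw
    have hT' : Φ (derivative T) = Matrix.scalar (Fin D) (dl τ) := by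
      ext i j
      rw [hΦ, hT]
      by_cases h : i = j
      · subst h; simp
      · simp [h]
    have hder : ∀ (q : R[X]) (i : Fin D), (Φ (derivative q)).mulVec c i = dl ((Φ q).mulVec c i) := by
      intro q i
      simp only [Matrix.mulVec, dotProduct, map_sum, Derivation.leibniz, hc, smul_eq_mul,
        hΦ]
      refine Finset.sum_congr rfl fun j _ => by ring
    -- the right-hand side
    have h1 : em Φ c (fun l' => QQ T M (n + 1) l' l) a =
        τ * dl (em Φ c (fun l' => QQ T M n l' l) a) -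
          (n : L) * dl τ * em Φ c (fun l' => QQ T M n l' l) a -
          ∑ b : Fin r × Fin D, Φ (M a.1 b.1) a.2 b.2 * em Φ c (fun l' => QQ T M n l' l) b := by
      unfold em
      rw [← hder]
      have h2 : Φ (QQ T M (n + 1) a.1 l) = Matrix.scalar (Fin D) τ * Φ (derivative (QQ T M n a.1 l)) -
          (n : Matrix (Fin D) (Fin D) L) * Matrix.scalar (Fin D) (dl τ) * Φ (QQ T M n a.1 l) -
          ∑ m, Φ (M a.1 m) * Φ (QQ T M n m l) := by
        rw [QQ_succ_apply]
        simp only [map_sub, map_mul, map_sum, map_natCast, hT, hT']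
      rw [h2]
      rw [Matrix.sub_mulVec, Matrix.sub_mulVec, Pi.sub_apply, Pi.sub_apply]
      have h3 : (Matrix.scalar (Fin D) τ * Φ (derivative (QQ T M n a.1 l))).mulVec c a.2 =
          τ * (Φ (derivative (QQ T M n a.1 l))).mulVec c a.2 := by
        rw [← Matrix.mulVec_mulVec]
        simp [Matrix.scalar_apply, Matrix.mulVec_diagonal]
      have h4 : ((n : Matrix (Fin D) (Fin D) L) * Matrix.scalar (Fin D) (dl τ) *
          Φ (QQ T M n a.1 l)).mulVec c a.2 = (n : L) * dl τ * (Φ (QQ T M n a.1 l)).mulVec c a.2 := by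
        have h5 : (n : Matrix (Fin D) (Fin D) L) * Matrix.scalar (Fin D) (dl τ) =
            Matrix.scalar (Fin D) ((n : L) * dl τ) := by
          rw [map_mul, map_natCast]
        rw [h5, ← Matrix.mulVec_mulVec]
        simp [Matrix.scalar_apply, Matrix.mulVec_diagonal]
      have h6 : (∑ m, Φ (M a.1 m) * Φ (QQ T M n m l)).mulVec c a.2 =
          ∑ b : Fin r × Fin D, Φ (M a.1 b.1) a.2 b.2 * (Φ (QQ T M n b.1 l)).mulVec c b.2 := by
        rw [Matrix.sum_mulVec, Finset.sum_apply, Fintype.sum_prod_type]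
        refine Finset.sum_congr rfl fun m _ => ?_
        rw [← Matrix.mulVec_mulVec]
        rfl
      rw [h3, h4, h6]
    rw [h1]
    simp only [← ih]
    have h7 : DD w a = dl (w a) - ∑ b, τ⁻¹ * Φ (M a.1 b.1) a.2 b.2 * w b := rfl
    have h8 : τ ^ (n + 1) * ∑ b, τ⁻¹ * Φ (M a.1 b.1) a.2 b.2 * w b =
        ∑ b : Fin r × Fin D, Φ (M a.1 b.1) a.2 b.2 * (τ ^ n * w b) := by
      rw [Finset.mul_sum]
      refine Finset.sum_congr rfl fun b _ => ?_
      rw [pow_succ]
      field_simp
    rw [h7, mul_sub, h8, Derivation.leibniz, Derivation.leibniz_pow]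
    simp only [smul_eq_mul, nsmul_eq_mul]
    have h9 : τ * (τ ^ n * dl (w a) + w a * ((n : L) * (τ ^ (n - 1) * dl τ))) -
        (n : L) * dl τ * (τ ^ n * w a) = τ ^ (n + 1) * dl (w a) := by
      cases n with
      | zero => simp
      | succ m =>
        simp only [Nat.add_sub_cancel]
        ring
    rw [h9]

/-- The uniform bound for the coordinates of the iterates. -/
theorem em_bound {Γ : Type*} [LinearOrderedCommGroupWithZero Γ] (v : Valuation L Γ)
    (hdl : ∀ f, v (dl f) ≤ v f) {τ : L}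
    (hΦ : ∀ f i j, Φ (derivative f) i j = dl (Φ f i j)) {T : R[X]}
    (hT : Φ T = Matrix.scalar (Fin D) τ) (hτ : v τ = 1) {c : Fin D → L} (hc : ∀ i, dl (c i) = 0)
    {M : Matrix (Fin r) (Fin r) R[X]} {β μ : Γ} (hβ : 1 ≤ β)
    (hM : ∀ a b i j, v (Φ (M a b) i j) ≤ β) (hμ : ∀ i, v (c i) ≤ μ) {l : Fin r} {N : ℕ}
    (hN : ∀ a, em Φ c (fun l' => QQ T M N l' l) a = 0) (n : ℕ) (a : Fin r × Fin D) :
    v (em Φ c (fun l' => QQ T M n l' l) a) ≤ β ^ (r * D) * μ := by
  have hτ0 : τ ≠ 0 := by
    rintro rfl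
    simp at hτ
  have hit := em_iterate dl Φ hΦ hT hτ0 hc M l
  have hm0 : ∀ a, v (em Φ c (fun l' => (1 : Matrix (Fin r) (Fin r) R[X]) l' l) a) ≤ μ := by
    intro a
    change v ((Φ ((1 : Matrix (Fin r) (Fin r) R[X]) a.1 l)).mulVec c a.2) ≤ μ
    by_cases h : a.1 = l
    · rw [h, Matrix.one_apply_eq, map_one, Matrix.one_mulVec]
      exact hμ _
    · rw [Matrix.one_apply_ne h, map_zero, Matrix.zero_mulVec, Pi.zero_apply, map_zero]
      exact zero_le
  have hG : ∀ i j, v (GG Φ τ M i j) ≤ β := by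
    intro i j
    unfold GG
    rw [map_mul, map_inv₀, hτ, inv_one, one_mul]
    exact hM _ _ _ _
  have hN' : (fun y : Fin r × Fin D → L => fun i => dl (y i) - (GG Φ τ M).mulVec y i)^[N]
      (em Φ c (fun l' => (1 : Matrix (Fin r) (Fin r) R[X]) l' l)) = 0 := by
    ext1 a
    have h1 := hit N a
    rw [hN a] at h1
    rw [Pi.zero_apply]
    exact (mul_eq_zero.mp h1).resolve_left (pow_ne_zero _ hτ0)
  have h1 := coord_bound v dl hdl (GG Φ τ M) hβ hG hm0 hN' n a
  rw [← hit n a, map_mul, map_pow, hτ, one_pow, one_mul]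
  simpa using h1

end emb

end Pool.Agent.W432.FD
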