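import Mathlib
import Pool.Agent.W432.FD.Sys
import Pool.Agent.W432.FD.Loc

set_option autoImplicit false

open Polynomial
open Pool.Agent.W432.PC

namespace Pool.Agent.W432.FD

section phi

variable {R : Type*} [CommRing R] {k : Type*} [Field k] {D r : ℕ}
  (ρ : R →+* Matrix (Fin D) (Fin D) k)

/-- The polynomial matrix of multiplication by a polynomial. -/
noncomputable def phiP : R[X] →+* Matrix (Fin D) (Fin D) k[X] :=
  ((matPolyEquiv (R := k) (n := Fin D)).symm : (Matrix (Fin D) (Fin D) k)[X] →+*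
    Matrix (Fin D) (Fin D) k[X]).comp (mapRingHom ρ)

lemma phiP_coeff (q : R[X]) (i j : Fin D) (m : ℕ) :
    (phiP ρ q i j).coeff m = ρ (q.coeff m) i j := by
  unfold phiP
  simp only [RingHom.comp_apply, coe_mapRingHom]
  change (((matPolyEquiv (R := k) (n := Fin D)).symm (q.map ρ)) i j).coeff m = _
  rw [← matPolyEquiv_coeff_apply, AlgEquiv.apply_symm_apply, coeff_map]

lemma phiP_derivative (q : R[X]) (i j : Fin D) :
    phiP ρ (derivative q) i j = derivative (phiP ρ q i j) := by
  ext m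
  rw [phiP_coeff, coeff_derivative, coeff_derivative, phiP_coeff, map_mul]
  have h1 : ρ ((m : R) + 1) = ((m + 1 : ℕ) : Matrix (Fin D) (Fin D) k) := by
    rw [map_add, map_natCast, map_one, Nat.cast_add, Nat.cast_one]
  rw [h1, Matrix.mul_apply, Finset.sum_eq_single j]
  · simp [Matrix.natCast_apply]
  · intro b _ hb
    simp [Matrix.natCast_apply, hb]
  · intro h; exact absurd (Finset.mem_univ j) h

/-- The matrix of multiplication by a polynomial, over `k(x)`. -/
noncomputable def Phi : R[X] →+* Matrix (Fin D) (Fin D) (RatFunc k) :=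
  ((algebraMap k[X] (RatFunc k)).mapMatrix).comp (phiP ρ)

lemma Phi_apply (q : R[X]) (i j : Fin D) :
    Phi ρ q i j = algebraMap k[X] (RatFunc k) (phiP ρ q i j) := rfl

lemma Phi_derivative (q : R[X]) (i j : Fin D) :
    Phi ρ (derivative q) i j = ddx k (Phi ρ q i j) := by
  rw [Phi_apply, Phi_apply, ddx_algebraMap, phiP_derivative]

/-- The polynomial of coordinates. -/
lemma em_eq (c : Fin D → k) (y : Fin r → R[X]) (a : Fin r × Fin D) :
    em (Phi ρ) (fun j => RatFunc.C (c j)) y a =
      algebraMap k[X] (RatFunc k) (∑ j, phiP ρ (y a.1) a.2 j * C (c j)) := by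
  unfold em
  simp only [Matrix.mulVec, dotProduct, map_sum, map_mul, Phi_apply]
  refine Finset.sum_congr rfl fun j _ => ?_
  rw [RatFunc.algebraMap_C]

lemma coord_coeff (c : Fin D → k) (q : R[X]) (i : Fin D) (m : ℕ) :
    (∑ j, phiP ρ q i j * C (c j)).coeff m = (ρ (q.coeff m)).mulVec c i := by
  simp only [finsetSum_coeff, coeff_mul_C, phiP_coeff, Matrix.mulVec, dotProduct]

lemma Phi_scalar {q : R[X]} {q' : k[X]} (h : ∀ m, ρ (q.coeff m) = Matrix.scalar (Fin D) (q'.coeff m)) :
    Phi ρ q = Matrix.scalar (Fin D) (algebraMap k[X] (RatFunc k) q') := by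
  ext i j
  rw [Phi_apply]
  by_cases hij : i = j
  · subst hij
    rw [Matrix.scalar_apply, Matrix.diagonal_apply_eq]
    congr 1
    ext m
    rw [phiP_coeff, h, Matrix.scalar_apply, Matrix.diagonal_apply_eq]
  · rw [Matrix.scalar_apply, Matrix.diagonal_apply_ne _ hij]
    have : phiP ρ q i j = 0 := by
      ext m
      rw [phiP_coeff, h, Matrix.scalar_apply, Matrix.diagonal_apply_ne _ hij, coeff_zero]
    rw [this, map_zero]

/-- An additive map with the Leibniz rule is a derivation over the integers. -/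
noncomputable def toZ {L : Type*} [Field L] (dl : L → L) (h1 : dl 1 = 0)
    (hadd : ∀ x y, dl (x + y) = dl x + dl y) (hmul : ∀ x y, dl (x * y) = x * dl y + y * dl x) :
    Derivation ℤ L L where
  toLinearMap := (AddMonoidHom.mk' dl hadd).toIntLinearMap
  map_one_eq_zero' := h1
  leibniz' x y := by
    change dl (x * y) = x • dl y + y • dl x
    rw [hmul, smul_eq_mul, smul_eq_mul]

/-- `d/dx` as a derivation over the integers. -/
noncomputable def ddZ (k : Type*) [Field k] :=
  toZ (L := RatFunc k) (fun f => ddx k f) (Derivation.map_one_eq_zero _)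
    (fun x y => map_add _ x y) (fun x y => by
      rw [Derivation.leibniz, smul_eq_mul, smul_eq_mul])

lemma ddZ_apply (g : RatFunc k) : ddZ k g = ddx k g := rfl

open WithZero in
/-- The uniform bound in coordinates. -/
theorem phi_bound (w : Valuation k ℤᵐ⁰) {T : R[X]} {T' : k[X]}
    (hT : ∀ m, ρ (T.coeff m) = Matrix.scalar (Fin D) (T'.coeff m))
    (hT' : gs w T' = 1) (c : Fin D → k) {M : Matrix (Fin r) (Fin r) R[X]} {β μ : ℤᵐ⁰} (hβ : 1 ≤ β)
    (hM : ∀ a b m i j, w (ρ ((M a b).coeff m) i j) ≤ β) (hμ : ∀ i, w (c i) ≤ μ) {l : Fin r} {N : ℕ}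
    (hN : ∀ l' m, (ρ ((QQ T M N l' l).coeff m)).mulVec c = 0) (n : ℕ) (l' : Fin r) (m : ℕ)
    (i : Fin D) :
    w ((ρ ((QQ T M n l' l).coeff m)).mulVec c i) ≤ β ^ (r * D) * μ := by
  have hdl : ∀ f, gaussR w (ddZ k f) ≤ gaussR w f := fun f => by
    rw [ddZ_apply]; exact gaussR_ddx_le w f
  have hc : ∀ i, ddZ k (RatFunc.C (c i)) = 0 := by
    intro i
    rw [ddZ_apply, ← RatFunc.algebraMap_C, ddx_algebraMap, derivative_C, map_zero]
  have hC : ∀ i, gaussR w (RatFunc.C (c i)) ≤ μ := by
    intro i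
    rw [← RatFunc.algebraMap_C, gaussR_algebraMap, gs_le]
    intro j
    rw [coeff_C]
    by_cases h : j = 0
    · rw [if_pos h]; exact hμ i
    · rw [if_neg h, map_zero]; exact zero_le
  have hMM : ∀ a b i j, gaussR w (Phi ρ (M a b) i j) ≤ β := by
    intro a b i j
    rw [Phi_apply, gaussR_algebraMap, gs_le]
    intro m
    rw [phiP_coeff]
    exact hM a b m i j
  have hτ : gaussR w (algebraMap k[X] (RatFunc k) T') = 1 := by rw [gaussR_algebraMap, hT']
  have hNN : ∀ a, em (Phi ρ) (fun j => RatFunc.C (c j)) (fun l' => QQ T M N l' l) a = 0 := by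
    intro a
    rw [em_eq]
    have : (∑ j, phiP ρ (QQ T M N a.1 l) a.2 j * C (c j)) = 0 := by
      ext m
      rw [coord_coeff, hN a.1 m, Pi.zero_apply, coeff_zero]
    rw [this, map_zero]
  have hder : ∀ f i j, Phi ρ (derivative f) i j = ddZ k (Phi ρ f i j) := fun f i j => by
    rw [ddZ_apply]; exact Phi_derivative ρ f i j
  have h1 := em_bound (ddZ k) (Phi ρ) (gaussR w) hdl hder (Phi_scalar ρ hT) hτ hc hβ hMM hC hNN n (l', i)
  rw [em_eq, gaussR_algebraMap, gs_le] at h1
  have h2 := h1 m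
  rwa [coord_coeff] at h2

end phi

end Pool.Agent.W432.FD
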