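import Mathlib
import Pool.Agent.W432.FD.Phi

set_option autoImplicit false

open Polynomial WithZero

namespace Pool.Agent.W432.FD

/-- Multiplication matrices of `R` over a localised polynomial ring `S[1/f]`. -/
structure RepData (R₀ R : Type*) [CommRing R₀] [IsDomain R₀] [CommRing R] [Algebra R₀ R]
    (d D : ℕ) where
  f : MvPolynomial (Fin d) R₀
  hf : f ≠ 0
  ρ : R →+* Matrix (Fin D) (Fin D) (Localization.Away f)
  c : Fin D → Localization.Away f
  β : Fin D → Matrix (Fin D) (Fin D) (Localization.Away f)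
  hscal : ∀ x : R₀, ρ (algebraMap R₀ R x) =
    Matrix.scalar (Fin D) (algebraMap (MvPolynomial (Fin d) R₀) _ (MvPolynomial.C x))
  hcomm : ∀ y i, ρ y * β i = β i * ρ y
  hdec : ∀ y, ρ y = ∑ i, ((ρ y).mulVec c i) • β i
  hdet : (Matrix.of fun i j => (β i * β j).trace).det ≠ 0
  hdety : ∀ y, y ≠ 0 → (ρ y).det ≠ 0

section fibre

variable {R₀ R : Type*} [CommRing R₀] [IsDomain R₀] [CommRing R] [Algebra R₀ R]
  {d D : ℕ} (E : RepData R₀ R d D) {κ : Type*} [Field κ] (θ : R₀ →+* κ)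
  (hθ : MvPolynomial.map θ E.f ≠ 0)

/-- The reduced representation. -/
noncomputable def rb : R →+* Matrix (Fin D) (Fin D) (FractionRing (MvPolynomial (Fin d) κ)) :=
  ((pif E.f θ hθ).mapMatrix).comp E.ρ

/-- The reduced coordinates of `1`. -/
noncomputable def cb : Fin D → FractionRing (MvPolynomial (Fin d) κ) :=
  fun i => pif E.f θ hθ (E.c i)

lemma rb_apply (y : R) (i j : Fin D) : rb E θ hθ y i j = pif E.f θ hθ (E.ρ y i j) := rfl

lemma rb_algebraMap (x : R₀) : rb E θ hθ (algebraMap R₀ R x) =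
    Matrix.scalar (Fin D) (algebraMap (MvPolynomial (Fin d) κ) _ (MvPolynomial.C (θ x))) := by
  ext i j
  rw [rb_apply, E.hscal]
  by_cases h : i = j
  · subst h
    rw [Matrix.scalar_apply, Matrix.diagonal_apply_eq, Matrix.scalar_apply,
      Matrix.diagonal_apply_eq, pif_algebraMap, MvPolynomial.map_C]
  · rw [Matrix.scalar_apply, Matrix.diagonal_apply_ne _ h, Matrix.scalar_apply,
      Matrix.diagonal_apply_ne _ h, map_zero]

lemma rb_mulVec (y : R) (i : Fin D) :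
    (rb E θ hθ y).mulVec (cb E θ hθ) i = pif E.f θ hθ ((E.ρ y).mulVec E.c i) := by
  simp only [Matrix.mulVec, dotProduct, map_sum, map_mul]
  rfl

lemma rb_dec (y : R) : rb E θ hθ y =
    ∑ i, ((rb E θ hθ y).mulVec (cb E θ hθ) i) • ((pif E.f θ hθ).mapMatrix (E.β i)) := by
  have h1 : rb E θ hθ y = (pif E.f θ hθ).mapMatrix (E.ρ y) := rfl
  conv_lhs => rw [h1, E.hdec y, map_sum]
  refine Finset.sum_congr rfl fun i _ => ?_
  rw [rb_mulVec]
  ext a b
  simp [RingHom.mapMatrix_apply]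

lemma nil_coord (hdet : pif E.f θ hθ (Matrix.of fun i j => (E.β i * E.β j).trace).det ≠ 0)
    {y : R} (hy : IsNilpotent (rb E θ hθ y)) : (rb E θ hθ y).mulVec (cb E θ hθ) = 0 := by
  set B : Fin D → Matrix (Fin D) (Fin D) (FractionRing (MvPolynomial (Fin d) κ)) :=
    fun i => (pif E.f θ hθ).mapMatrix (E.β i) with hB
  have hdet' : (Matrix.of fun i j => (B i * B j).trace).det ≠ 0 := by
    have h1 : (Matrix.of fun i j => (B i * B j).trace) =
        (pif E.f θ hθ).mapMatrix (Matrix.of fun i j => (E.β i * E.β j).trace) := by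
      ext i j
      simp only [Matrix.of_apply, RingHom.mapMatrix_apply, Matrix.map_apply, hB]
      rw [← Matrix.map_mul]
      simp only [Matrix.trace, Matrix.diag_apply, Matrix.map_apply, map_sum]
    rw [h1, ← RingHom.map_det]
    exact hdet
  apply Matrix.eq_zero_of_vecMul_eq_zero hdet'
  ext1 j
  have hcomm : rb E θ hθ y * B j = B j * rb E θ hθ y := by
    have h1 : rb E θ hθ y = (pif E.f θ hθ).mapMatrix (E.ρ y) := rfl
    rw [h1, hB]
    simp only
    rw [← map_mul, E.hcomm, map_mul]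
  have htr : (rb E θ hθ y * B j).trace = 0 :=
    (Matrix.isNilpotent_trace_of_isNilpotent
      ((show Commute (rb E θ hθ y) (B j) from hcomm).isNilpotent_mul_right hy)).eq_zero
  have h2 : (rb E θ hθ y * B j).trace =
      ∑ i, (rb E θ hθ y).mulVec (cb E θ hθ) i * (B i * B j).trace := by
    conv_lhs => rw [rb_dec E θ hθ y]
    rw [Finset.sum_mul, Matrix.trace_sum]
    refine Finset.sum_congr rfl fun i _ => ?_
    rw [Matrix.smul_mul, Matrix.trace_smul, smul_eq_mul]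
  rw [htr] at h2
  rw [Pi.zero_apply, h2]
  rfl

lemma coord_zero [IsJacobsonRing R]
    (hdet : pif E.f θ hθ (Matrix.of fun i j => (E.β i * E.β j).trace).det ≠ 0)
    {g a : R} (hg : pif E.f θ hθ (E.ρ g).det ≠ 0)
    (h : ∀ 𝔪 : Ideal R, 𝔪.IsMaximal → (∀ x, θ x = 0 → algebraMap R₀ R x ∈ 𝔪) → g ∉ 𝔪 → a ∈ 𝔪) :
    (rb E θ hθ a).mulVec (cb E θ hθ) = 0 := by
  set I : Ideal R := Ideal.map (algebraMap R₀ R) (RingHom.ker θ) with hI
  have h1 : g * a ∈ I.jacobson := by
    rw [Ideal.jacobson, Ideal.mem_sInf]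
    rintro 𝔪 ⟨hle, hmax⟩
    by_cases hgm : g ∈ 𝔪
    · exact 𝔪.mul_mem_right _ hgm
    · refine 𝔪.mul_mem_left _ (h 𝔪 hmax (fun x hx => hle ?_) hgm)
      exact Ideal.mem_map_of_mem _ hx
  rw [← Ideal.radical_eq_jacobson] at h1
  obtain ⟨e, he⟩ := h1
  have hker : I ≤ RingHom.ker (rb E θ hθ) := by
    rw [hI, Ideal.map_le_iff_le_comap]
    intro x hx
    rw [Ideal.mem_comap, RingHom.mem_ker, rb_algebraMap, (RingHom.mem_ker).mp hx]
    simp
  have h2 : IsNilpotent (rb E θ hθ (g * a)) := ⟨e, by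
    rw [← map_pow]; exact hker he⟩
  have h3 := nil_coord E θ hθ hdet h2
  rw [map_mul, ← Matrix.mulVec_mulVec] at h3
  have h4 : (rb E θ hθ g).det ≠ 0 := by
    have h5 : rb E θ hθ g = (pif E.f θ hθ).mapMatrix (E.ρ g) := rfl
    rw [h5, ← RingHom.map_det]
    exact hg
  exact Matrix.eq_zero_of_mulVec_eq_zero h4 h3

/-- Residue fields of points over the closed point `ker θ` have characteristic `p`. -/
lemma pnilp_coord [IsJacobsonRing R] {p : ℕ} [Fact p.Prime] [CharP κ p]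
    (hsurj : Function.Surjective θ)
    (hdet : pif E.f θ hθ (Matrix.of fun i j => (E.β i * E.β j).trace).det ≠ 0)
    {g : R} (hg : pif E.f θ hθ (E.ρ g).det ≠ 0) {r : ℕ} {T : R₀[X]} (hT : T.map θ ≠ 0)
    {M : Matrix (Fin r) (Fin r) R[X]}
    (hnil : ∀ (𝔪 : Ideal R) (h𝔪 : 𝔪.IsMaximal), g ∉ 𝔪 →
      letI : Field (R ⧸ 𝔪) := Ideal.Quotient.field 𝔪
      PNilp ((T.map (algebraMap R₀ R)).map (Ideal.Quotient.mk 𝔪))
        (M.map (mapRingHom (Ideal.Quotient.mk 𝔪)))) (l l' : Fin r) (m : ℕ) :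
    (rb E θ hθ ((QQ (T.map (algebraMap R₀ R)) M (p * r) l' l).coeff m)).mulVec (cb E θ hθ) = 0 := by
  refine coord_zero E θ hθ hdet hg fun 𝔪 h𝔪 hker hgm => ?_
  let _ : Field (R ⧸ 𝔪) := Ideal.Quotient.field 𝔪
  have h1 := hnil 𝔪 h𝔪 hgm
  -- the residue characteristic
  have hlift : ∃ φ : κ →+* R ⧸ 𝔪, φ.comp θ = (Ideal.Quotient.mk 𝔪).comp (algebraMap R₀ R) := by
    refine ⟨RingHom.liftOfSurjective θ hsurj ⟨(Ideal.Quotient.mk 𝔪).comp (algebraMap R₀ R), ?_⟩,
      RingHom.liftOfRightInverse_comp _ _ _ _⟩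
    intro x hx
    rw [RingHom.mem_ker, RingHom.comp_apply]
    exact Ideal.Quotient.eq_zero_iff_mem.mpr (hker x hx)
  obtain ⟨φ, hφ⟩ := hlift
  have hchar : CharP (R ⧸ 𝔪) p := charP_of_injective_ringHom φ.injective p
  have hrc : ringChar (R ⧸ 𝔪) = p := ringChar.eq _ _
  have hT' : (T.map (algebraMap R₀ R)).map (Ideal.Quotient.mk 𝔪) ≠ 0 := by
    rw [Polynomial.map_map, ← hφ, ← Polynomial.map_map]
    exact (Polynomial.map_ne_zero_iff φ.injective).mpr hT
  have h2 := QQ_eq_zero_of_pnilp hT' h1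
  rw [hrc, ← QQ_map] at h2
  have h3 := congrFun (congrFun h2 l') l
  rw [Matrix.map_apply, Matrix.zero_apply, coe_mapRingHom] at h3
  have h4 := congrArg (fun q => q.coeff m) h3
  simp only [coeff_map, coeff_zero] at h4
  exact Ideal.Quotient.eq_zero_iff_mem.mp h4

end fibre

end Pool.Agent.W432.FD
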