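import Mathlib
import Pool.Agent.W432.FD.Fibre
import Pool.Agent.W432.PC.Points

set_option autoImplicit false

open Polynomial WithZero
open Pool.Agent.W432.PC

namespace Pool.Agent.W432.FD

universe u

section fibrebound

variable {R₀ R : Type*} [CommRing R₀] [IsDomain R₀] [CommRing R] [Algebra R₀ R]
  {d D : ℕ} (E : RepData R₀ R d D) {κ : Type*} [Field κ] (θ : R₀ →+* κ)
  (hθ : MvPolynomial.map θ E.f ≠ 0)

lemma fibre_bound [IsJacobsonRing R] {p : ℕ} [Fact p.Prime] [CharP κ p]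
    (hsurj : Function.Surjective θ)
    (hdeg : (MvPolynomial.map θ E.f).totalDegree = E.f.totalDegree)
    (hdet : pif E.f θ hθ (Matrix.of fun i j => (E.β i * E.β j).trace).det ≠ 0)
    {g : R} (hg : pif E.f θ hθ (E.ρ g).det ≠ 0) {r : ℕ} {T : R₀[X]} (hT : T.map θ ≠ 0)
    {M : Matrix (Fin r) (Fin r) R[X]}
    (hnil : ∀ (𝔪 : Ideal R) (h𝔪 : 𝔪.IsMaximal), g ∉ 𝔪 →
      letI : Field (R ⧸ 𝔪) := Ideal.Quotient.field 𝔪
      PNilp ((T.map (algebraMap R₀ R)).map (Ideal.Quotient.mk 𝔪))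
        (M.map (mapRingHom (Ideal.Quotient.mk 𝔪))))
    {β μ : ℤᵐ⁰} (hβ : 1 ≤ β)
    (hM : ∀ a b m i j, dv R₀ d (jf E.f E.hf (E.ρ ((M a b).coeff m) i j)) ≤ β)
    (hμ : ∀ i, dv R₀ d (jf E.f E.hf (E.c i)) ≤ μ) (n : ℕ) (l l' : Fin r) (m : ℕ) (i : Fin D) :
    dv κ d (pif E.f θ hθ ((E.ρ ((QQ (T.map (algebraMap R₀ R)) M n l' l).coeff m)).mulVec E.c i)) ≤
      β ^ (r * D) * μ := by
  let k := FractionRing (MvPolynomial (Fin d) κ)
  let ι : κ →+* k := (algebraMap (MvPolynomial (Fin d) κ) k).comp MvPolynomial.C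
  set T' : k[X] := (T.map θ).map ι with hT'
  have hcoef : ∀ m, rb E θ hθ ((T.map (algebraMap R₀ R)).coeff m) =
      Matrix.scalar (Fin D) (T'.coeff m) := by
    intro m
    rw [coeff_map, rb_algebraMap, hT', coeff_map, coeff_map]
    rfl
  have hι : Function.Injective ι := ι.injective
  have hval : ∀ x : κ, x ≠ 0 → dv κ d (ι x) = 1 := by
    intro x hx
    have h1 : dv κ d (ι x) = degVal (MvPolynomial.C x : MvPolynomial (Fin d) κ) :=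
      degK_algebraMap _ _
    rw [h1, degVal_of_ne (by rwa [Ne, MvPolynomial.C_eq_zero]), MvPolynomial.totalDegree_C]
    simp
  have hgs : gs (dv κ d) T' = 1 := by
    apply le_antisymm
    · rw [gs_le]
      intro j
      rw [hT', coeff_map]
      by_cases h : (T.map θ).coeff j = 0
      · rw [h, map_zero, map_zero]; exact zero_le
      · rw [hval _ h]
    · obtain ⟨j, hj⟩ : ∃ j, (T.map θ).coeff j ≠ 0 := by
        by_contra! h
        exact hT (Polynomial.ext fun j => by rw [h j, coeff_zero])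
      have h1 := le_gs (dv κ d) T' j
      rwa [hT', coeff_map, hval _ hj] at h1
  have h1 := phi_bound (rb E θ hθ) (dv κ d) hcoef hgs (cb E θ hθ) (M := M) hβ
    (fun a b m i j => by
      rw [rb_apply]
      exact (dv_compare θ E.hf hθ hdeg _).trans (hM a b m i j))
    (fun i => (dv_compare θ E.hf hθ hdeg _).trans (hμ i)) (l := l) (N := p * r)
    (fun l' m => pnilp_coord E θ hθ hsurj hdet hg hT hnil l l' m) n l' m i
  rwa [rb_mulVec] at h1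

end fibrebound

lemma exists_bd_fin {ι : Type*} [Fintype ι] (F : ι → ℤᵐ⁰) : ∃ β : ℤᵐ⁰, ∀ i, F i ≤ β :=
  ⟨Finset.univ.sup F, fun i => Finset.le_sup (f := F) (Finset.mem_univ i)⟩

lemma exists_bd_poly {R : Type*} [CommRing R] (q : R[X]) (F : R → ℤᵐ⁰) (hF : F 0 = 0) :
    ∃ β : ℤᵐ⁰, ∀ m, F (q.coeff m) ≤ β := by
  refine ⟨q.support.sup fun m => F (q.coeff m), fun m => ?_⟩
  by_cases hm : m ∈ q.support
  · exact Finset.le_sup (f := fun m => F (q.coeff m)) hm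
  · rw [notMem_support_iff.mp hm, hF]
    exact zero_le

/-- The degrees of the coordinates of all iterates are bounded. -/
theorem bound0 {R₀ R : Type u} [CommRing R₀] [IsDomain R₀] [CharZero R₀] [Algebra.FiniteType ℤ R₀]
    [CommRing R] [IsDomain R] [Algebra R₀ R] [Algebra.FiniteType R₀ R] {d D : ℕ}
    (E : RepData R₀ R d D) {r : ℕ} {T : R₀[X]} (hT : T ≠ 0) {M : Matrix (Fin r) (Fin r) R[X]}
    {g : R} (hg : g ≠ 0)
    (hnil : ∀ (𝔪 : Ideal R) (h𝔪 : 𝔪.IsMaximal), g ∉ 𝔪 →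
      letI : Field (R ⧸ 𝔪) := Ideal.Quotient.field 𝔪
      PNilp ((T.map (algebraMap R₀ R)).map (Ideal.Quotient.mk 𝔪))
        (M.map (mapRingHom (Ideal.Quotient.mk 𝔪)))) :
    ∃ B : ℤᵐ⁰, ∀ (n : ℕ) (l l' : Fin r) (m : ℕ) (i : Fin D),
      dv R₀ d (jf E.f E.hf ((E.ρ ((QQ (T.map (algebraMap R₀ R)) M n l' l).coeff m)).mulVec E.c i)) ≤
        B := by
  classical
  have hjacZ : IsJacobsonRing ℤ := jac_int
  have hjac0 : IsJacobsonRing R₀ := isJacobsonRing_of_finiteType (A := ℤ)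
  have hjac : IsJacobsonRing R := isJacobsonRing_of_finiteType (A := R₀)
  -- the constants
  obtain ⟨β, hβ1, hM⟩ : ∃ β : ℤᵐ⁰, 1 ≤ β ∧ ∀ a b m i j,
      dv R₀ d (jf E.f E.hf (E.ρ ((M a b).coeff m) i j)) ≤ β := by
    have h1 : ∀ x : (Fin r × Fin r) × (Fin D × Fin D), ∃ β : ℤᵐ⁰, ∀ m,
        dv R₀ d (jf E.f E.hf (E.ρ ((M x.1.1 x.1.2).coeff m) x.2.1 x.2.2)) ≤ β := fun x =>
      exists_bd_poly (M x.1.1 x.1.2) (fun y => dv R₀ d (jf E.f E.hf (E.ρ y x.2.1 x.2.2))) (by simp)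
    choose F hF using h1
    obtain ⟨β, hβ⟩ := exists_bd_fin F
    refine ⟨max 1 β, le_max_left _ _, fun a b m i j => ?_⟩
    exact (hF ((a, b), (i, j)) m).trans ((hβ _).trans (le_max_right _ _))
  obtain ⟨μ, hμ'⟩ := exists_bd_fin fun i => dv R₀ d (jf E.f E.hf (E.c i))
  refine ⟨β ^ (r * D) * μ, ?_⟩
  intro n l l' m i
  set z := (E.ρ ((QQ (T.map (algebraMap R₀ R)) M n l' l).coeff m)).mulVec E.c i with hz
  by_cases hz0 : z = 0
  · rw [hz0, map_zero, map_zero]; exact zero_le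
  obtain ⟨x₁, hx₁, h₁⟩ := dv_eq E.hf hz0
  obtain ⟨x₂, hx₂, h₂⟩ := dv_eq E.hf E.hdet
  obtain ⟨x₃, hx₃, h₃⟩ := dv_eq E.hf (E.hdety g hg)
  have hx₄ : T.leadingCoeff ≠ 0 := leadingCoeff_ne_zero.mpr hT
  have hx₅ := lcc_ne E.hf
  have hx : x₁ * x₂ * x₃ * T.leadingCoeff * lcc E.f ≠ 0 :=
    mul_ne_zero (mul_ne_zero (mul_ne_zero (mul_ne_zero hx₁ hx₂) hx₃) hx₄) hx₅
  obtain ⟨P₁, hP₁⟩ := exists_closed_point R₀ hx
  obtain ⟨p, hpgt, hpp⟩ := Nat.exists_infinite_primes (P₁ + 1)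
  obtain ⟨𝔪₀, h𝔪₀, hpm, hxm⟩ := hP₁ p hpp (by omega)
  let _ : Field (R₀ ⧸ 𝔪₀) := Ideal.Quotient.field 𝔪₀
  let θ : R₀ →+* R₀ ⧸ 𝔪₀ := Ideal.Quotient.mk 𝔪₀
  have hfact : Fact p.Prime := ⟨hpp⟩
  have hchar : CharP (R₀ ⧸ 𝔪₀) p := by
    have h1 : ((p : ℕ) : R₀ ⧸ 𝔪₀) = 0 := by
      have : ((p : ℕ) : R₀ ⧸ 𝔪₀) = Ideal.Quotient.mk 𝔪₀ (p : R₀) := by simp
      rw [this]
      exact Ideal.Quotient.eq_zero_iff_mem.mpr hpm
    have h2 : ringChar (R₀ ⧸ 𝔪₀) ∣ p := ringChar.dvd h1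
    rcases (Nat.dvd_prime hpp).mp h2 with h3 | h3
    · exact absurd h3 (CharP.ringChar_ne_one)
    · exact ringChar.of_eq h3
  have hne : ∀ x : R₀, x ∣ x₁ * x₂ * x₃ * T.leadingCoeff * lcc E.f → θ x ≠ 0 := by
    intro x hdvd h0
    apply hxm
    obtain ⟨y, hy⟩ := hdvd
    rw [hy]
    exact 𝔪₀.mul_mem_right _ (Ideal.Quotient.eq_zero_iff_mem.mp h0)
  have e₅ : θ (lcc E.f) ≠ 0 := hne _ ⟨x₁ * x₂ * x₃ * T.leadingCoeff, by ring⟩
  have e₄ : θ T.leadingCoeff ≠ 0 := hne _ ⟨x₁ * x₂ * x₃ * lcc E.f, by ring⟩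
  have e₃ : θ x₃ ≠ 0 := hne _ ⟨x₁ * x₂ * T.leadingCoeff * lcc E.f, by ring⟩
  have e₂ : θ x₂ ≠ 0 := hne _ ⟨x₁ * x₃ * T.leadingCoeff * lcc E.f, by ring⟩
  have e₁ : θ x₁ ≠ 0 := hne _ ⟨x₂ * x₃ * T.leadingCoeff * lcc E.f, by ring⟩
  obtain ⟨hθ, hdeg⟩ := map_of_lcc θ E.hf e₅
  have hTθ : T.map θ ≠ 0 := by
    intro h0
    have h1 := congrArg (fun q => q.coeff T.natDegree) h0
    simp only [coeff_map, coeff_zero] at h1
    exact e₄ h1
  have h4 := fibre_bound E θ hθ (p := p) Ideal.Quotient.mk_surjective hdeg (h₂ θ hθ hdeg e₂).2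
    (h₃ θ hθ hdeg e₃).2 hTθ hnil hβ1 hM hμ' n l l' m i
  rw [← hz, (h₁ θ hθ hdeg e₁).1] at h4
  exact h4

end Pool.Agent.W432.FD
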