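import Mathlib
import Pool.Agent.W432.FD.Sys

set_option autoImplicit false

open Polynomial
open Pool.Agent.W432.PC

namespace Pool.Agent.W432.FD

section conn

variable {K : Type*} [Field K] {r : ℕ} (T : K[X]) (M : Matrix (Fin r) (Fin r) K[X])

lemma conn_add (y z : Fin r → RatFunc K) : conn T M (y + z) = conn T M y + conn T M z := by
  ext1 i
  simp only [conn, Pi.add_apply, map_add, Matrix.mulVec_add]
  ring

lemma conn_smul (f : RatFunc K) (y : Fin r → RatFunc K) :
    conn T M (f • y) = ddx K f • y + f • conn T M y := by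
  ext1 i
  simp only [conn, Pi.add_apply, Pi.smul_apply, smul_eq_mul, Matrix.mulVec_smul,
    Derivation.leibniz]
  ring

lemma conn_zero : conn T M 0 = 0 := by
  ext1 i
  simp [conn]

lemma conn_sum {ι : Type*} (s : Finset ι) (y : ι → Fin r → RatFunc K) :
    conn T M (∑ j ∈ s, y j) = ∑ j ∈ s, conn T M (y j) := by
  classical
  induction s using Finset.induction_on with
  | empty => simpa using conn_zero T M
  | insert a s ha ih => rw [Finset.sum_insert ha, Finset.sum_insert ha, conn_add, ih]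

end conn

/-- A connection whose iterates have coefficients in a finite dimensional space is a quotient of a
connection over the smaller field. -/
theorem descend {k₀ K : Type*} [Field k₀] [Field K] (κ₀ : k₀ →+* K) {r : ℕ} {T : k₀[X]}
    (hT : T ≠ 0) (M : Matrix (Fin r) (Fin r) K[X]) {ι₀ : Type*} [Fintype ι₀] (w : ι₀ → K)
    (H : ∀ (n : ℕ) (l l' : Fin r) (m : ℕ), ∃ c : ι₀ → k₀,
      (QQ (T.map κ₀) M n l' l).coeff m = ∑ j, κ₀ (c j) * w j) :
    ∃ (m e : ℕ) (M' : Matrix (Fin m) (Fin m) k₀[X]) (P : Matrix (Fin r) (Fin m) (RatFunc K))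
      (P' : Matrix (Fin m) (Fin r) (RatFunc K)), P * P' = 1 ∧
      ∀ z : Fin m → RatFunc K, conn (T.map κ₀) M (P.mulVec z) =
        P.mulVec (conn ((T ^ e).map κ₀) (M'.map (mapRingHom κ₀)) z) := by
  classical
  obtain ⟨η, hηf⟩ : ∃ η : k₀[X] →+* RatFunc K,
      ∀ f, η f = algebraMap K[X] (RatFunc K) (f.map κ₀) :=
    ⟨(algebraMap K[X] (RatFunc K)).comp (mapRingHom κ₀), fun _ => rfl⟩
  have hη : Function.Injective η := by
    intro a b hab
    rw [hηf, hηf] at hab
    exact Polynomial.map_injective κ₀ κ₀.injective (IsFractionRing.injective K[X] (RatFunc K) hab)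
  let _ : Algebra k₀[X] (RatFunc K) := η.toAlgebra
  have hsm : ∀ (f : k₀[X]) (u : Fin r → RatFunc K), f • u = η f • u := by
    intro f u
    ext1 i
    rw [Pi.smul_apply, Pi.smul_apply, Algebra.smul_def]
    rfl
  have hTK : T.map κ₀ ≠ 0 := (Polynomial.map_ne_zero_iff κ₀.injective).mpr hT
  have hηT : η T ≠ 0 := by rw [Ne, map_eq_zero_iff η hη]; exact hT
  set v : ℕ → Fin r → (Fin r → RatFunc K) :=
    fun n l => (conn (T.map κ₀) M)^[n] (Pi.single l 1) with hv
  have hvs : ∀ n l, conn (T.map κ₀) M (v n l) = v (n + 1) l := by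
    intro n l
    simp only [hv]
    rw [Function.iterate_succ_apply']
  let ω : ι₀ × Fin r → (Fin r → RatFunc K) := fun jl => Pi.single jl.2 (RatFunc.C (w jl.1))
  let W₀ : Submodule k₀[X] (Fin r → RatFunc K) := Submodule.span k₀[X] (Set.range ω)
  have hW₀fg : W₀.FG := Submodule.fg_span (Set.finite_range ω)
  have hfin : Module.Finite k₀[X] W₀ := Module.Finite.iff_fg.mpr hW₀fg
  have hnoeth : IsNoetherian k₀[X] W₀ := inferInstance
  -- the vectors `T ^ n v n l` lie in `W₀`
  have hvW : ∀ n l, T ^ n • v n l ∈ W₀ := by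
    intro n l
    choose c hc using fun l' m => H n l l' m
    have h1 : T ^ n • v n l = ∑ l', ∑ j, (∑ m ∈ (QQ (T.map κ₀) M n l' l).support,
        C (c l' m j) * X ^ m) • ω (j, l') := by
      ext1 i
      rw [hsm, Pi.smul_apply, smul_eq_mul, map_pow]
      have h2 := conn_iterate (T := T.map κ₀) (M := M) hTK l n i
      have h3 : η T = algebraMap K[X] (RatFunc K) (T.map κ₀) := hηf T
      rw [h3, h2]
      simp only [Finset.sum_apply, hsm, Pi.smul_apply, smul_eq_mul, ω]
      rw [Finset.sum_eq_single i]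
      · simp only [Pi.single_eq_same]
        conv_lhs => rw [(QQ (T.map κ₀) M n i l).as_sum_support_C_mul_X_pow]
        rw [map_sum]
        simp only [map_sum, Finset.sum_mul]
        rw [Finset.sum_comm]
        refine Finset.sum_congr rfl fun m _ => ?_
        rw [hc i m]
        simp only [map_sum, map_mul, Finset.sum_mul]
        refine Finset.sum_congr rfl fun j _ => ?_
        have h4 : η (C (c i m j)) = algebraMap K[X] (RatFunc K) (C (κ₀ (c i m j))) := by
          rw [hηf, map_C]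
        have h5 : η (X ^ m) = algebraMap K[X] (RatFunc K) (X ^ m) := by
          rw [hηf, Polynomial.map_pow, map_X]
        rw [h4, h5, RatFunc.algebraMap_C, RatFunc.algebraMap_C]
        ring
      · intro b _ hb
        refine Finset.sum_eq_zero fun j _ => ?_
        rw [Pi.single_eq_of_ne (Ne.symm hb), mul_zero]
      · intro h; exact absurd (Finset.mem_univ i) h
    rw [h1]
    exact Submodule.sum_mem _ fun l' _ => Submodule.sum_mem _ fun j _ =>
      Submodule.smul_mem _ _ (Submodule.subset_span ⟨(j, l'), rfl⟩)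
  -- the chain
  let Y : ℕ → Submodule k₀[X] (Fin r → RatFunc K) := fun n =>
    Submodule.span k₀[X] (Set.range fun x : Fin (n + 1) × Fin r => v x.1.val x.2)
  have hYmem : ∀ n j l, j ≤ n → v j l ∈ Y n := fun n j l hj =>
    Submodule.subset_span ⟨(⟨j, by omega⟩, l), rfl⟩
  have hYmono : Monotone Y := by
    intro n n' hn
    refine Submodule.span_le.mpr ?_
    rintro _ ⟨⟨j, l⟩, rfl⟩
    exact hYmem n' j.val l (by omega)
  let Z : ℕ → Submodule k₀[X] W₀ := fun n =>
    { carrier := {u | ∃ e : ℕ, T ^ e • (u : Fin r → RatFunc K) ∈ Y n}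
      zero_mem' := ⟨0, by simp⟩
      add_mem' := by
        rintro a b ⟨e, he⟩ ⟨e', he'⟩
        refine ⟨e + e', ?_⟩
        rw [Submodule.coe_add, smul_add]
        refine Submodule.add_mem _ ?_ ?_
        · rw [pow_add, mul_comm, mul_smul]
          exact Submodule.smul_mem _ _ he
        · rw [pow_add, mul_smul]
          exact Submodule.smul_mem _ _ he'
      smul_mem' := by
        rintro f a ⟨e, he⟩
        refine ⟨e, ?_⟩
        rw [Submodule.coe_smul, smul_comm]
        exact Submodule.smul_mem _ _ he }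
  have hZmono : Monotone Z := by
    intro n n' hn a ha
    obtain ⟨e, he⟩ := ha
    exact ⟨e, hYmono hn he⟩
  obtain ⟨n₀, hn₀⟩ := (monotone_stabilizes_iff_noetherian (R := k₀[X]) (M := W₀)).mpr hnoeth
    ⟨Z, hZmono⟩
  have hstep : ∀ l, ∃ e : ℕ, T ^ e • v (n₀ + 1) l ∈ Y n₀ := by
    intro l
    have h1 : (⟨T ^ (n₀ + 1) • v (n₀ + 1) l, hvW (n₀ + 1) l⟩ : W₀) ∈ Z (n₀ + 1) :=
      ⟨0, by
        rw [pow_zero, one_smul]
        exact Submodule.smul_mem _ _ (hYmem _ _ _ le_rfl)⟩
    have h2 := hn₀ (n₀ + 1) (Nat.le_succ n₀)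
    simp only [OrderHom.coe_mk] at h2
    rw [← h2] at h1
    obtain ⟨e, he⟩ := h1
    refine ⟨e + (n₀ + 1), ?_⟩
    rw [pow_add, mul_smul]
    exact he
  choose E hE using hstep
  set e : ℕ := ∑ l, E l with he
  have hE' : ∀ l, T ^ e • v (n₀ + 1) l ∈ Y n₀ := by
    intro l
    have h1 : E l ≤ e := Finset.single_le_sum (f := E) (fun _ _ => Nat.zero_le _)
      (Finset.mem_univ l)
    rw [← Nat.sub_add_cancel h1, pow_add, mul_smul]
    exact Submodule.smul_mem _ _ (hE l)
  -- stability
  have hηd : ∀ f : k₀[X], ddx K (η f) = η (derivative f) := by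
    intro f
    rw [hηf, hηf, ddx_algebraMap, derivative_map]
  have hstab : ∀ u ∈ Y n₀, T ^ e • conn (T.map κ₀) M u ∈ Y n₀ := by
    intro u hu
    induction hu using Submodule.span_induction with
    | mem u hu =>
      obtain ⟨⟨j, l⟩, rfl⟩ := hu
      rw [hvs]
      dsimp only
      rcases Nat.lt_or_ge (j.val + 1) (n₀ + 1) with h | h
      · exact Submodule.smul_mem _ _ (hYmem _ _ _ (by omega))
      · have h2 : j.val + 1 = n₀ + 1 := by have := j.2; omega
        rw [h2]
        exact hE' l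
    | zero => rw [conn_zero, smul_zero]; exact Submodule.zero_mem _
    | add a b _ _ ha hb => rw [conn_add, smul_add]; exact Submodule.add_mem _ ha hb
    | smul f a ha' ha =>
      rw [hsm f a, conn_smul, hηd, ← hsm, ← hsm, smul_add]
      refine Submodule.add_mem _ (Submodule.smul_mem _ _ (Submodule.smul_mem _ _ ha')) ?_
      rw [smul_comm]
      exact Submodule.smul_mem _ _ ha
  -- a basis
  have hVfg : (Y n₀).FG := Submodule.fg_span (Set.finite_range _)
  have hVfin : Module.Finite k₀[X] (Y n₀) := Module.Finite.iff_fg.mpr hVfg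
  have hfaith : FaithfulSMul k₀[X] (RatFunc K) := (faithfulSMul_iff_algebraMap_injective _ _).mpr hη
  have htf : Module.IsTorsionFree k₀[X] (Y n₀) := inferInstance
  have hfree : Module.Free k₀[X] (Y n₀) := inferInstance
  obtain ⟨m, bV⟩ : ∃ m : ℕ, Nonempty (Module.Basis (Fin m) k₀[X] (Y n₀)) :=
    ⟨_, ⟨Module.finBasis k₀[X] (Y n₀)⟩⟩
  obtain ⟨bV⟩ := bV
  have hexp : ∀ (u : Fin r → RatFunc K) (hu : u ∈ Y n₀),
      u = ∑ s, η (bV.repr ⟨u, hu⟩ s) • ((bV s : Y n₀) : Fin r → RatFunc K) := by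
    intro u hu
    have h1 := congrArg (fun a : Y n₀ => (a : Fin r → RatFunc K)) (bV.sum_repr ⟨u, hu⟩)
    simp only [AddSubmonoidClass.coe_finsetSum, Submodule.coe_smul] at h1
    exact h1.symm.trans (Finset.sum_congr rfl fun s _ => hsm _ _)
  have hst : ∀ j, T ^ e • conn (T.map κ₀) M ((bV j : Y n₀) : Fin r → RatFunc K) ∈ Y n₀ :=
    fun j => hstab _ (bV j).2
  have he₀ : ∀ l, (Pi.single l 1 : Fin r → RatFunc K) ∈ Y n₀ := fun l => hYmem n₀ 0 l (Nat.zero_le _)
  obtain ⟨Nm, hNm⟩ : ∃ Nm : Fin m → Fin m → k₀[X], ∀ j,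
      T ^ e • conn (T.map κ₀) M ((bV j : Y n₀) : Fin r → RatFunc K) =
        ∑ s, η (Nm s j) • ((bV s : Y n₀) : Fin r → RatFunc K) :=
    ⟨fun s j => bV.repr ⟨_, hst j⟩ s, fun j => hexp _ (hst j)⟩
  refine ⟨m, e, Matrix.of fun s j => -(Nm s j),
    Matrix.of fun i j => ((bV j : Y n₀) : Fin r → RatFunc K) i,
    Matrix.of fun s l => η (bV.repr ⟨_, he₀ l⟩ s), ?_, ?_⟩
  · ext i l
    rw [Matrix.mul_apply]
    simp only [Matrix.of_apply]
    have h1 := congrFun (hexp _ (he₀ l)) i
    simp only [Finset.sum_apply, Pi.smul_apply, smul_eq_mul] at h1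
    rw [Matrix.one_apply]
    rw [Pi.single_apply] at h1
    rw [h1]
    refine Finset.sum_congr rfl fun s _ => mul_comm _ _
  · intro z
    set P : Matrix (Fin r) (Fin m) (RatFunc K) :=
      Matrix.of fun i j => ((bV j : Y n₀) : Fin r → RatFunc K) i with hP
    have hPz : P.mulVec z = ∑ j, z j • ((bV j : Y n₀) : Fin r → RatFunc K) := by
      ext1 i
      simp only [Matrix.mulVec, dotProduct, hP, Matrix.of_apply, Finset.sum_apply, Pi.smul_apply,
        smul_eq_mul]
      exact Finset.sum_congr rfl fun j _ => mul_comm _ _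
    have hTe : η (T ^ e) ≠ 0 := by rw [map_pow]; exact pow_ne_zero _ hηT
    have hcb : ∀ j, conn (T.map κ₀) M ((bV j : Y n₀) : Fin r → RatFunc K) =
        (η (T ^ e))⁻¹ • ∑ s, η (Nm s j) • ((bV s : Y n₀) : Fin r → RatFunc K) := by
      intro j
      rw [← hNm j, hsm, smul_smul, inv_mul_cancel₀ hTe, one_smul]
    rw [hPz, conn_sum]
    simp only [conn_smul, hcb]
    ext1 i
    simp only [Finset.sum_apply, Pi.add_apply, Pi.smul_apply, smul_eq_mul, Matrix.mulVec,
      dotProduct, conn, hP, Matrix.of_apply, Matrix.map_apply]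
    simp only [mul_sub, Finset.sum_add_distrib, Finset.sum_sub_distrib]
    simp only [coe_mapRingHom, ← hηf, map_neg]
    rw [sub_eq_add_neg]
    congr 1
    · exact Finset.sum_congr rfl fun j _ => mul_comm _ _
    · simp only [Finset.mul_sum, neg_mul, mul_neg, Finset.sum_neg_distrib, neg_neg]
      rw [Finset.sum_comm]
      refine Finset.sum_congr rfl fun s _ => Finset.sum_congr rfl fun j _ => ?_
      ring

end Pool.Agent.W432.FD
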