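import Mathlib

set_option autoImplicit false

namespace Pool.Agent.W432.FD

universe u

/-- Clearing the denominators of a polynomial over a fraction field. -/
lemma clear_den {R₀ k₀ : Type*} [CommRing R₀] [IsDomain R₀] [Field k₀] [Algebra R₀ k₀]
    [IsFractionRing R₀ k₀] {d : ℕ} (p : MvPolynomial (Fin d) k₀) :
    ∃ x : R₀, x ≠ 0 ∧ ∃ P : MvPolynomial (Fin d) R₀,
      MvPolynomial.C (algebraMap R₀ k₀ x) * p = MvPolynomial.map (algebraMap R₀ k₀) P := by
  induction p using MvPolynomial.induction_on with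
  | C a =>
    obtain ⟨n, x, hx, rfl⟩ := IsFractionRing.div_surjective (A := R₀) a
    have hx0 : x ≠ 0 := nonZeroDivisors.ne_zero hx
    have hx1 : algebraMap R₀ k₀ x ≠ 0 := by
      rw [Ne, map_eq_zero_iff _ (IsFractionRing.injective R₀ k₀)]; exact hx0
    refine ⟨x, hx0, MvPolynomial.C n, ?_⟩
    rw [MvPolynomial.map_C, ← map_mul]
    congr 1
    field_simp
  | add p q hp hq =>
    obtain ⟨x, hx, P, hP⟩ := hp
    obtain ⟨y, hy, Q, hQ⟩ := hq
    refine ⟨x * y, mul_ne_zero hx hy, MvPolynomial.C y * P + MvPolynomial.C x * Q, ?_⟩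
    simp only [map_add, map_mul, MvPolynomial.map_C, ← hP, ← hQ]
    ring
  | mul_X p i hp =>
    obtain ⟨x, hx, P, hP⟩ := hp
    refine ⟨x, hx, P * MvPolynomial.X i, ?_⟩
    rw [map_mul, ← hP, MvPolynomial.map_X]
    ring

lemma clear_den_fin {R₀ k₀ : Type*} [CommRing R₀] [IsDomain R₀] [Field k₀] [Algebra R₀ k₀]
    [IsFractionRing R₀ k₀] {d n : ℕ} (p : Fin n → MvPolynomial (Fin d) k₀) :
    ∃ x : R₀, x ≠ 0 ∧ ∃ P : Fin n → MvPolynomial (Fin d) R₀, ∀ j,
      MvPolynomial.C (algebraMap R₀ k₀ x) * p j = MvPolynomial.map (algebraMap R₀ k₀) (P j) := by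
  classical
  choose x hx P hP using fun j => clear_den (R₀ := R₀) (p j)
  refine ⟨∏ j, x j, Finset.prod_ne_zero_iff.mpr fun j _ => hx j,
    fun j => MvPolynomial.C (∏ i ∈ Finset.univ.erase j, x i) * P j, fun j => ?_⟩
  rw [map_mul, ← hP j, MvPolynomial.map_C, ← Finset.mul_prod_erase _ _ (Finset.mem_univ j)]
  simp only [map_mul]
  ring

/-- Noether normalization over a domain, inside the field of fractions. -/
theorem noether {R₀ R : Type u} [CommRing R₀] [IsDomain R₀] [CommRing R] [IsDomain R]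
    [Algebra R₀ R] (hinj : Function.Injective (algebraMap R₀ R)) [Algebra.FiniteType R₀ R]
    (K : Type u) [Field K] [Algebra R K] [IsFractionRing R K] :
    ∃ (d : ℕ) (σK : MvPolynomial (Fin d) R₀ →+* K) (n : ℕ) (a : Fin n → K),
      Function.Injective σK ∧
      (∀ x, σK (MvPolynomial.C x) = algebraMap R K (algebraMap R₀ R x)) ∧
      ∀ y : R, ∃ x : R₀, x ≠ 0 ∧ ∃ P : Fin n → MvPolynomial (Fin d) R₀,
        algebraMap R K (algebraMap R₀ R x) * algebraMap R K y = ∑ j, σK (P j) * a j := by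
  classical
  let k₀ := FractionRing R₀
  have hRK : Function.Injective (algebraMap R K) := IsFractionRing.injective R K
  have hR₀K : Function.Injective ((algebraMap R K).comp (algebraMap R₀ R)) := hRK.comp hinj
  let φ : k₀ →+* K := IsFractionRing.lift (A := R₀) (K := k₀) hR₀K
  have hφ : ∀ x : R₀, φ (algebraMap R₀ k₀ x) = algebraMap R K (algebraMap R₀ R x) := fun x =>
    IsFractionRing.lift_algebraMap hR₀K x
  let _ : Algebra k₀ K := φ.toAlgebra
  obtain ⟨t, ht⟩ : (⊤ : Subalgebra R₀ R).FG := Algebra.FiniteType.out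
  let A : Subalgebra k₀ K := Algebra.adjoin k₀ (algebraMap R K '' (t : Set R))
  have hAft : Algebra.FiniteType k₀ A := by
    rw [← Subalgebra.fg_iff_finiteType]
    exact Subalgebra.fg_adjoin_finset (t.image (algebraMap R K)) |> (fun h => by simpa [A] using h)
  have hRA : ∀ y : R, algebraMap R K y ∈ A := by
    intro y
    have hy : y ∈ Algebra.adjoin R₀ (t : Set R) := by rw [ht]; exact Algebra.mem_top
    induction hy using Algebra.adjoin_induction with
    | mem x hx => exact Algebra.subset_adjoin (Set.mem_image_of_mem _ hx)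
    | algebraMap r =>
      rw [← hφ]
      exact A.algebraMap_mem _
    | add x y _ _ hx hy => rw [map_add]; exact A.add_mem hx hy
    | mul x y _ _ hx hy => rw [map_mul]; exact A.mul_mem hx hy
  obtain ⟨d, g, hginj, hgfin⟩ := exists_finite_inj_algHom_of_fg k₀ A
  have hfin : letI := g.toRingHom.toAlgebra; Module.Finite (MvPolynomial (Fin d) k₀) A := hgfin
  let _ : Algebra (MvPolynomial (Fin d) k₀) A := g.toRingHom.toAlgebra
  obtain ⟨n, s, hs⟩ := Module.Finite.exists_fin (R := MvPolynomial (Fin d) k₀) (M := A)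
  let σK : MvPolynomial (Fin d) R₀ →+* K :=
    (A.val.toRingHom.comp g.toRingHom).comp (MvPolynomial.map (algebraMap R₀ k₀))
  refine ⟨d, σK, n, fun j => (s j : K), ?_, ?_, ?_⟩
  · refine (Subtype.val_injective.comp hginj).comp ?_
    exact MvPolynomial.map_injective _ (IsFractionRing.injective R₀ k₀)
  · intro x
    rw [← hφ]
    have h1 : σK (MvPolynomial.C x) = ((g (MvPolynomial.map (algebraMap R₀ k₀)
        (MvPolynomial.C x)) : A) : K) := rfl
    rw [h1, MvPolynomial.map_C]
    have h2 : g (MvPolynomial.C (algebraMap R₀ k₀ x)) = algebraMap k₀ A (algebraMap R₀ k₀ x) :=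
      g.commutes _
    rw [h2]
    rfl
  · intro y
    have h1 : (⟨algebraMap R K y, hRA y⟩ : A) ∈
        Submodule.span (MvPolynomial (Fin d) k₀) (Set.range s) := by
      rw [hs]; exact Submodule.mem_top
    obtain ⟨p, hp⟩ := (Submodule.mem_span_range_iff_exists_fun _).mp h1
    obtain ⟨x, hx, P, hP⟩ := clear_den_fin (R₀ := R₀) p
    refine ⟨x, hx, P, ?_⟩
    have h2 : algebraMap R K y = ∑ j, ((g (p j) : A) : K) * (s j : K) := by
      have h3 := congrArg (fun z : A => (z : K)) hp
      simp only [AddSubmonoidClass.coe_finsetSum] at h3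
      rw [← h3]
      rfl
    rw [h2, ← hφ, Finset.mul_sum]
    refine Finset.sum_congr rfl fun j _ => ?_
    rw [← mul_assoc]
    congr 1
    have h4 : φ (algebraMap R₀ k₀ x) = ((g (MvPolynomial.C (algebraMap R₀ k₀ x)) : A) : K) := by
      have h5 : g (MvPolynomial.C (algebraMap R₀ k₀ x)) = algebraMap k₀ A (algebraMap R₀ k₀ x) :=
        g.commutes _
      rw [h5]
      rfl
    have h6 : σK (P j) = ((g (MvPolynomial.map (algebraMap R₀ k₀) (P j)) : A) : K) := rfl
    rw [h4, h6, ← hP j, map_mul]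
    rfl

end Pool.Agent.W432.FD
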