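import Mathlib
import Pool.Agent.W432.FD.Fibre
import Pool.Agent.W432.FD.Noether

set_option autoImplicit false

namespace Pool.Agent.W432.FD

universe u

/-- Lifting a matrix representation along an injective ring homomorphism. -/
lemma exists_lift_matrix {R B Q : Type*} [CommRing R] [CommRing B] [CommRing Q] {D : ℕ}
    (j : B →+* Q) (hj : Function.Injective j) (ρ : R →+* Matrix (Fin D) (Fin D) Q)
    (h : ∀ y a b, ∃ w, j w = ρ y a b) :
    ∃ ρ' : R →+* Matrix (Fin D) (Fin D) B, ∀ y, j.mapMatrix (ρ' y) = ρ y := by
  choose F hF using h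
  have hinj : Function.Injective (j.mapMatrix : Matrix (Fin D) (Fin D) B →+* Matrix (Fin D) (Fin D) Q) := by
    intro x y hxy
    ext a b
    apply hj
    have := congrFun (congrFun hxy a) b
    simpa [RingHom.mapMatrix_apply] using this
  have hF' : ∀ y, j.mapMatrix (Matrix.of (F y)) = ρ y := by
    intro y
    ext a b
    simp [RingHom.mapMatrix_apply, hF]
  refine ⟨⟨⟨⟨fun y => Matrix.of (F y), ?_⟩, ?_⟩, ?_, ?_⟩, hF'⟩
  · apply hinj
    rw [hF', map_one, map_one]
  · intro x y
    apply hinj
    change j.mapMatrix (Matrix.of (F (x * y))) = j.mapMatrix (Matrix.of (F x) * Matrix.of (F y))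
    rw [map_mul, hF', hF', hF', map_mul]
  · apply hinj
    change j.mapMatrix (Matrix.of (F 0)) = j.mapMatrix 0
    rw [hF', map_zero, map_zero]
  · intro x y
    apply hinj
    change j.mapMatrix (Matrix.of (F (x + y))) = j.mapMatrix (Matrix.of (F x) + Matrix.of (F y))
    rw [map_add, hF', hF', hF', map_add]

/-- The field of fractions is finite over the field of rational functions. -/
lemma finite_of_span {R Q K : Type*} [CommRing R] [IsDomain R] [Field Q] [Field K] [Algebra R K]
    [IsFractionRing R K] [Algebra Q K] {n : ℕ} (a : Fin n → K)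
    (h : ∀ y : R, algebraMap R K y ∈ Submodule.span Q (Set.range a)) : FiniteDimensional Q K := by
  let V : Subalgebra Q K := Algebra.adjoin Q (Set.range (algebraMap R K))
  have hcl : (Submonoid.closure (Set.range (algebraMap R K)) : Set K) =
      Set.range (algebraMap R K) := by
    have h1 : Set.range (algebraMap R K) = ((algebraMap R K).range : Set K) := rfl
    have h2 : Submonoid.closure (Set.range (algebraMap R K)) =
        ((algebraMap R K).range.toSubmonoid) := by
      apply le_antisymm
      · rw [Submonoid.closure_le]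
        intro x hx
        exact hx
      · intro x hx
        exact Submonoid.subset_closure hx
    rw [h2]
    rfl
  have hVle : Subalgebra.toSubmodule V ≤ Submodule.span Q (Set.range a) := by
    rw [Algebra.adjoin_eq_span, hcl, Submodule.span_le]
    rintro _ ⟨y, rfl⟩
    exact h y
  have hfin : FiniteDimensional Q (Submodule.span Q (Set.range a)) :=
    FiniteDimensional.span_of_finite Q (Set.finite_range a)
  have hVfin : FiniteDimensional Q V := by
    have h1 : FiniteDimensional Q (Subalgebra.toSubmodule V) :=
      Submodule.finiteDimensional_of_le hVle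
    exact h1
  have hVtop : V = ⊤ := by
    rw [eq_top_iff]
    intro z _
    obtain ⟨x, y, hy, rfl⟩ := IsFractionRing.div_surjective (A := R) z
    have hx : algebraMap R K x ∈ V := Algebra.subset_adjoin ⟨x, rfl⟩
    have hy' : algebraMap R K y ∈ V := Algebra.subset_adjoin ⟨y, rfl⟩
    rw [div_eq_mul_inv]
    refine V.mul_mem hx ?_
    have halg : IsAlgebraic Q (algebraMap R K y) := by
      have h1 : IsAlgebraic Q (⟨algebraMap R K y, hy'⟩ : V) := Algebra.IsAlgebraic.isAlgebraic _
      exact (isAlgebraic_algebraMap_iff (R := Q) (A := K) (S := V) Subtype.val_injective).mpr h1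
    exact Subalgebra.inv_mem_of_algebraic (A := V) (x := ⟨algebraMap R K y, hy'⟩) halg
  have h2 : FiniteDimensional Q (⊤ : Subalgebra Q K) := hVtop ▸ hVfin
  exact (Subalgebra.topEquiv (R := Q) (A := K)).toLinearEquiv.finiteDimensional

/-- The representation attached to a finite extension of the field of rational functions. -/
theorem exists_setup {R₀ R : Type u} [CommRing R₀] [IsDomain R₀] [CharZero R₀] [CommRing R]
    [IsDomain R] [Algebra R₀ R] (hinj : Function.Injective (algebraMap R₀ R))
    [Algebra.FiniteType R₀ R] (K : Type u) [Field K] [Algebra R K] [IsFractionRing R K] :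
    ∃ (d D : ℕ) (E : RepData R₀ R d D) (h : MvPolynomial (Fin d) R₀) (b : Fin D → K)
      (σK : MvPolynomial (Fin d) R₀ →+* K), h ≠ 0 ∧ Function.Injective σK ∧
      (∀ x, σK (MvPolynomial.C x) = algebraMap R K (algebraMap R₀ R x)) ∧
      ∀ y : R, ∃ x : R₀, x ≠ 0 ∧ ∃ N : Fin D → MvPolynomial (Fin d) R₀,
        (∀ i, algebraMap (MvPolynomial (Fin d) R₀) (FractionRing (MvPolynomial (Fin d) R₀))
          (MvPolynomial.C x * h) * jf E.f E.hf ((E.ρ y).mulVec E.c i) =
          algebraMap (MvPolynomial (Fin d) R₀) (FractionRing (MvPolynomial (Fin d) R₀)) (N i)) ∧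
        σK (MvPolynomial.C x * h) * algebraMap R K y = ∑ i, σK (N i) * b i := by
  classical
  obtain ⟨d, σK, n, a, hσ, hσC, hspan⟩ := noether (R₀ := R₀) (R := R) hinj K
  let S := MvPolynomial (Fin d) R₀
  let Q := FractionRing S
  let ψ : Q →+* K := IsFractionRing.lift (A := S) (K := Q) hσ
  have hψ : ∀ s : S, ψ (algebraMap S Q s) = σK s := fun s => IsFractionRing.lift_algebraMap hσ s
  let _ : Algebra Q K := ψ.toAlgebra
  have hQK : ∀ z : Q, algebraMap Q K z = ψ z := fun _ => rfl
  have hSQ : Function.Injective (algebraMap S Q) := IsFractionRing.injective S Q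
  have hRK : Function.Injective (algebraMap R K) := IsFractionRing.injective R K
  -- finiteness
  have hfin : FiniteDimensional Q K := by
    refine finite_of_span (R := R) a fun y => ?_
    obtain ⟨x, hx, P, hP⟩ := hspan y
    have hx' : σK (MvPolynomial.C x) ≠ 0 := by
      rw [Ne, map_eq_zero_iff _ hσ, MvPolynomial.C_eq_zero]
      exact hx
    have h1 : algebraMap R K y = ∑ j, ((algebraMap S Q (MvPolynomial.C x))⁻¹ *
        algebraMap S Q (P j)) • a j := by
      rw [← hσC] at hP
      apply mul_left_cancel₀ hx'
      rw [hP, Finset.mul_sum]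
      refine Finset.sum_congr rfl fun j _ => ?_
      rw [Algebra.smul_def, hQK, map_mul, map_inv₀, hψ, hψ]
      field_simp
    rw [h1]
    exact Submodule.sum_mem _ fun j _ => Submodule.smul_mem _ _ (Submodule.subset_span ⟨j, rfl⟩)
  have hch : CharZero Q := charZero_of_injective_algebraMap (R := S) hSQ
  have hsep : Algebra.IsSeparable Q K := inferInstance
  set D := Module.finrank Q K with hD
  let b : Module.Basis (Fin D) Q K := Module.finBasis Q K
  -- common denominators
  obtain ⟨t, ht⟩ : (⊤ : Subalgebra R₀ R).FG := Algebra.FiniteType.out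
  obtain ⟨f, hf, hden⟩ := exists_den (R₀ := R₀) (d := d)
    (ι := (t × (Fin D × Fin D)) ⊕ (Fin D ⊕ (Fin D × (Fin D × Fin D))))
    (fun x => match x with
      | .inl (y, ij) => Algebra.leftMulMatrix b (algebraMap R K y) ij.1 ij.2
      | .inr (.inl i) => b.repr 1 i
      | .inr (.inr (l, ij)) => Algebra.leftMulMatrix b (b l) ij.1 ij.2)
  have hden1 : ∀ y ∈ t, ∀ i j, ∃ w, jf f hf w = Algebra.leftMulMatrix b (algebraMap R K y) i j :=
    fun y hy i j => hden (.inl (⟨y, hy⟩, (i, j)))
  have hden2 : ∀ i, ∃ w, jf f hf w = b.repr 1 i := fun i => hden (.inr (.inl i))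
  have hden3 : ∀ l i j, ∃ w, jf f hf w = Algebra.leftMulMatrix b (b l) i j :=
    fun l i j => hden (.inr (.inr (l, (i, j))))
  let ρQ : R →+* Matrix (Fin D) (Fin D) Q :=
    (Algebra.leftMulMatrix b : K →ₐ[Q] Matrix (Fin D) (Fin D) Q).toRingHom.comp (algebraMap R K)
  have hρQ : ∀ y, ρQ y = Algebra.leftMulMatrix b (algebraMap R K y) := fun _ => rfl
  have hscalQ : ∀ x : R₀, ρQ (algebraMap R₀ R x) =
      Matrix.scalar (Fin D) (algebraMap S Q (MvPolynomial.C x)) := by
    intro x
    have h1 : algebraMap R K (algebraMap R₀ R x) =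
        algebraMap Q K (algebraMap S Q (MvPolynomial.C x)) := by rw [hQK, hψ, hσC]
    rw [hρQ, h1]
    have h2 : Algebra.leftMulMatrix b (algebraMap Q K (algebraMap S Q (MvPolynomial.C x))) =
        algebraMap Q (Matrix (Fin D) (Fin D) Q) (algebraMap S Q (MvPolynomial.C x)) :=
      AlgHom.commutes _ _
    rw [h2]
    rfl
  have hrange : ∀ y i j, ∃ w, jf f hf w = ρQ y i j := by
    intro y
    have hy : y ∈ Algebra.adjoin R₀ (t : Set R) := by rw [ht]; exact Algebra.mem_top
    induction hy using Algebra.adjoin_induction with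
    | mem y hy => exact hden1 y hy
    | algebraMap x =>
      intro i j
      rw [hscalQ]
      by_cases hij : i = j
      · subst hij
        exact ⟨algebraMap _ _ (MvPolynomial.C x), by
          rw [jf_algebraMap, Matrix.scalar_apply, Matrix.diagonal_apply_eq]⟩
      · exact ⟨0, by rw [map_zero, Matrix.scalar_apply, Matrix.diagonal_apply_ne _ hij]⟩
    | add y z _ _ hy hz =>
      intro i j
      obtain ⟨u, hu⟩ := hy i j
      obtain ⟨w, hw⟩ := hz i j
      exact ⟨u + w, by rw [map_add, hu, hw, map_add]; rfl⟩
    | mul y z _ _ hy hz =>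
      intro i j
      choose u hu using hy
      choose w hw using hz
      refine ⟨∑ l, u i l * w l j, ?_⟩
      rw [map_sum, map_mul, Matrix.mul_apply]
      refine Finset.sum_congr rfl fun l _ => ?_
      rw [map_mul, hu, hw]
  obtain ⟨ρ, hρ⟩ := exists_lift_matrix (jf f hf) (jf_injective f hf) ρQ hrange
  choose c hc using hden2
  choose β hβ using hden3
  have hmi : Function.Injective ((jf f hf).mapMatrix :
      Matrix (Fin D) (Fin D) (Localization.Away f) →+* Matrix (Fin D) (Fin D) Q) := by
    intro x y hxy
    ext i j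
    apply jf_injective f hf
    have := congrFun (congrFun hxy i) j
    simpa [RingHom.mapMatrix_apply] using this
  have hβ' : ∀ i, (jf f hf).mapMatrix (Matrix.of (β i)) = Algebra.leftMulMatrix b (b i) := by
    intro i
    ext l m
    simp [RingHom.mapMatrix_apply, hβ]
  have hcoord : ∀ y i, jf f hf ((ρ y).mulVec c i) = b.repr (algebraMap R K y) i := by
    intro y i
    have h1 := congrFun (Algebra.leftMulMatrix_mulVec_repr b (algebraMap R K y) 1) i
    rw [mul_one] at h1
    rw [← h1]
    simp only [Matrix.mulVec, dotProduct, map_sum, map_mul, hc]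
    refine Finset.sum_congr rfl fun l _ => ?_
    congr 1
    rw [← hρQ, ← hρ y]
    rfl
  let E : RepData R₀ R d D :=
    { f := f
      hf := hf
      ρ := ρ
      c := c
      β := fun i => Matrix.of (β i)
      hscal := by
        intro x
        apply hmi
        rw [hρ, hscalQ]
        ext i j
        by_cases hij : i = j
        · subst hij
          rw [RingHom.mapMatrix_apply, Matrix.map_apply, Matrix.scalar_apply, Matrix.scalar_apply,
            Matrix.diagonal_apply_eq, Matrix.diagonal_apply_eq, jf_algebraMap]
        · rw [RingHom.mapMatrix_apply, Matrix.map_apply, Matrix.scalar_apply, Matrix.scalar_apply,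
            Matrix.diagonal_apply_ne _ hij, Matrix.diagonal_apply_ne _ hij, map_zero]
      hcomm := by
        intro y i
        apply hmi
        rw [map_mul, map_mul, hρ, hβ', hρQ, ← map_mul, ← map_mul, mul_comm]
      hdec := by
        intro y
        apply hmi
        rw [hρ, map_sum, hρQ]
        have h1 : algebraMap R K y = ∑ i, b.repr (algebraMap R K y) i • b i :=
          (b.sum_repr _).symm
        conv_lhs => rw [h1, map_sum]
        refine Finset.sum_congr rfl fun i _ => ?_
        rw [map_smul, ← hβ', ← hcoord]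
        ext l m
        simp [RingHom.mapMatrix_apply]
      hdet := by
        intro h0
        have h1 := det_traceForm_ne_zero (K := Q) (L := K) b
        apply h1
        have h2 : (LinearMap.BilinForm.toMatrix b) (Algebra.traceForm Q K) =
            (jf f hf).mapMatrix (Matrix.of fun i j =>
              (Matrix.of (β i) * Matrix.of (β j) : Matrix _ _ (Localization.Away f)).trace) := by
          ext i j
          rw [LinearMap.BilinForm.toMatrix_apply, Algebra.traceForm_apply,
            Algebra.trace_eq_matrix_trace b, map_mul, ← hβ', ← hβ', ← map_mul]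
          simp only [RingHom.mapMatrix_apply, Matrix.map_apply, Matrix.trace, Matrix.diag_apply,
            Matrix.of_apply, map_sum]
        rw [h2, ← RingHom.map_det, h0, map_zero]
      hdety := by
        intro y hy h0
        have h1 := congrArg (jf f hf) h0
        rw [map_zero, RingHom.map_det, hρ, hρQ] at h1
        have hy' : algebraMap R K y ≠ 0 := by
          rw [Ne, map_eq_zero_iff _ hRK]; exact hy
        have h2 : Algebra.leftMulMatrix b (algebraMap R K y) *
            Algebra.leftMulMatrix b (algebraMap R K y)⁻¹ = 1 := by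
          rw [← map_mul, mul_inv_cancel₀ hy', map_one]
        have h3 := congrArg Matrix.det h2
        rw [Matrix.det_mul, h1, zero_mul, Matrix.det_one] at h3
        exact zero_ne_one h3 }
  -- integrality
  obtain ⟨⟨h, hh⟩, hint⟩ := IsLocalization.exist_integer_multiples_of_finset
    (nonZeroDivisors S) (Finset.univ.image fun ji : Fin n × Fin D => b.repr (a ji.1) ji.2)
  have hh0 : h ≠ 0 := nonZeroDivisors.ne_zero hh
  have hint' : ∀ j i, ∃ m : S, algebraMap S Q m = algebraMap S Q h * b.repr (a j) i := by
    intro j i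
    obtain ⟨m, hm⟩ := hint (b.repr (a j) i) (Finset.mem_image_of_mem
      (fun ji : Fin n × Fin D => b.repr (a ji.1) ji.2) (Finset.mem_univ (j, i)))
    exact ⟨m, by rw [hm, Algebra.smul_def]⟩
  choose m hm using hint'
  refine ⟨d, D, E, h, b, σK, hh0, hσ, hσC, fun y => ?_⟩
  obtain ⟨x, hx, P, hP⟩ := hspan y
  have hkey : ∀ i, algebraMap S Q (MvPolynomial.C x * h) * b.repr (algebraMap R K y) i =
      algebraMap S Q (∑ j, P j * m j i) := by
    intro i
    have h1 : algebraMap S Q (MvPolynomial.C x) * b.repr (algebraMap R K y) i =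
        b.repr (algebraMap R K (algebraMap R₀ R x) * algebraMap R K y) i := by
      have h2 : algebraMap R K (algebraMap R₀ R x) * algebraMap R K y =
          (algebraMap S Q (MvPolynomial.C x)) • algebraMap R K y := by
        rw [Algebra.smul_def, hQK, hψ, hσC]
      rw [h2, map_smul, Finsupp.smul_apply, smul_eq_mul]
    have h3 : b.repr (∑ j, σK (P j) * a j) i = ∑ j, algebraMap S Q (P j) * b.repr (a j) i := by
      rw [map_sum, Finsupp.finsetSum_apply]
      refine Finset.sum_congr rfl fun j _ => ?_
      have h4 : σK (P j) * a j = (algebraMap S Q (P j)) • a j := by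
        rw [Algebra.smul_def, hQK, hψ]
      rw [h4, map_smul, Finsupp.smul_apply, smul_eq_mul]
    rw [map_mul, mul_right_comm, h1, hP, h3, map_sum, Finset.sum_mul]
    refine Finset.sum_congr rfl fun j _ => ?_
    rw [map_mul, hm]
    ring
  refine ⟨x, hx, fun i => ∑ j, P j * m j i, fun i => ?_, ?_⟩
  · change _ * jf f hf ((ρ y).mulVec c i) = _
    rw [hcoord, hkey]
  · have h1 : algebraMap R K y = ∑ i, b.repr (algebraMap R K y) i • b i := (b.sum_repr _).symm
    conv_lhs => rw [h1]
    rw [Finset.mul_sum]
    refine Finset.sum_congr rfl fun i _ => ?_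
    have h2 := congrArg ψ (hkey i)
    rw [map_mul, hψ, hψ] at h2
    rw [← h2, Algebra.smul_def, hQK]
    ring

end Pool.Agent.W432.FD
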