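import Mathlib
import Pool.Agent.W432.FD.Bound
import Pool.Agent.W432.FD.Setup
import Pool.Agent.W432.FD.Descend

set_option autoImplicit false

open Polynomial WithZero
open Pool.Agent.W432.PC

namespace Pool.Agent.W432.FD

universe u v

section defs

/-- The `p`-curvature of the reduction of `∇ = d/dx - T⁻¹ M` at the closed point `𝔪` of `Spec R`
is nilpotent. -/
def PNilpAt {R : Type*} [CommRing R] {r : ℕ} (T : R[X]) (M : Matrix (Fin r) (Fin r) R[X])
    (𝔪 : Ideal R) [h𝔪 : 𝔪.IsMaximal] : Prop :=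
  letI : Field (R ⧸ 𝔪) := Ideal.Quotient.field 𝔪
  PNilp (T.map (Ideal.Quotient.mk 𝔪)) (M.map (mapRingHom (Ideal.Quotient.mk 𝔪)))

/-- Nilpotent `p`-curvature at all closed points of a dense open subset of `Spec R`. -/
def GloballyNilpotent {R : Type*} [CommRing R] {r : ℕ} (T : R[X])
    (M : Matrix (Fin r) (Fin r) R[X]) : Prop :=
  ∃ g : R, g ≠ 0 ∧ ∀ (𝔪 : Ideal R) [𝔪.IsMaximal], g ∉ 𝔪 → PNilpAt T M 𝔪

/-- The connection `d/dx - T⁻¹ M` of rank `r` over `K(x)` is a quotient of the connection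
`d/dx - T'⁻¹ M'` of rank `m`: there is a surjective linear map `P` compatible with the two
connections. -/
def IsQuotientOf {K : Type*} [Field K] {r m : ℕ} (T : K[X]) (M : Matrix (Fin r) (Fin r) K[X])
    (T' : K[X]) (M' : Matrix (Fin m) (Fin m) K[X]) : Prop :=
  ∃ (P : Matrix (Fin r) (Fin m) (RatFunc K)) (P' : Matrix (Fin m) (Fin r) (RatFunc K)),
    P * P' = 1 ∧ ∀ z : Fin m → RatFunc K, conn T M (P.mulVec z) = P.mulVec (conn T' M' z)

end defs

/-- The coefficients of all iterates lie in a finite dimensional space. -/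
theorem bounded_span {R₀ R : Type u} [CommRing R₀] [IsDomain R₀] [CharZero R₀]
    [Algebra.FiniteType ℤ R₀] [CommRing R] [IsDomain R] [Algebra R₀ R]
    (hinj : Function.Injective (algebraMap R₀ R)) [Algebra.FiniteType R₀ R]
    (K : Type u) [Field K] [Algebra R K] [IsFractionRing R K]
    {k₀ : Type v} [Field k₀] [Algebra R₀ k₀] [IsFractionRing R₀ k₀] (κ₀ : k₀ →+* K)
    (hκ₀ : ∀ x, κ₀ (algebraMap R₀ k₀ x) = algebraMap R K (algebraMap R₀ R x))
    {r : ℕ} {T : R₀[X]} (hT : T ≠ 0) {M : Matrix (Fin r) (Fin r) R[X]}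
    (hnil : GloballyNilpotent (T.map (algebraMap R₀ R)) M) :
    ∃ (s : ℕ) (w : Fin s → K), ∀ (n : ℕ) (l l' : Fin r) (m : ℕ), ∃ c : Fin s → k₀,
      algebraMap R K ((QQ (T.map (algebraMap R₀ R)) M n l' l).coeff m) =
        ∑ j, κ₀ (c j) * w j := by
  classical
  obtain ⟨g, hg, hnil⟩ := hnil
  obtain ⟨d, D, E, h, b, σK, hh, hσ, hσC, hE⟩ := exists_setup (R₀ := R₀) (R := R) hinj K
  obtain ⟨B, hB⟩ := bound0 E hT (M := M) hg fun 𝔪 h𝔪 hgm => hnil 𝔪 hgm
  -- the degree bound
  obtain ⟨Δ, hΔ⟩ : ∃ Δ : ℕ, ∀ N : MvPolynomial (Fin d) R₀,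
      (degVal N : ℤᵐ⁰) ≤ degVal h * B → N.totalDegree ≤ Δ := by
    by_cases h0 : degVal h * B = 0
    · refine ⟨0, fun N hN => ?_⟩
      rw [h0] at hN
      by_cases hN0 : N = 0
      · rw [hN0, MvPolynomial.totalDegree_zero]
      · rw [degVal_of_ne hN0] at hN
        exact absurd (le_antisymm hN zero_le) exp_ne_zero
    · refine ⟨(log (degVal h * B)).toNat, fun N hN => ?_⟩
      by_cases hN0 : N = 0
      · rw [hN0, MvPolynomial.totalDegree_zero]; exact Nat.zero_le _
      · rw [degVal_of_ne hN0, ← exp_log h0, exp_le_exp] at hN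
        omega
  -- the finite family
  have hfin : {f : Fin d →₀ ℕ | f.degree ≤ Δ}.Finite := Finsupp.finite_of_degree_le Δ
  let 𝒯 : Finset (Fin d →₀ ℕ) := hfin.toFinset
  let ι₀ := 𝒯 × Fin D
  let w₀ : ι₀ → K := fun αi => σK (MvPolynomial.monomial αi.1.val 1) * b αi.2 * (σK h)⁻¹
  let eq := Fintype.equivFin ι₀
  refine ⟨Fintype.card ι₀, fun j => w₀ (eq.symm j), fun n l l' m => ?_⟩
  set y := (QQ (T.map (algebraMap R₀ R)) M n l' l).coeff m with hy
  obtain ⟨x, hx, N, hN1, hN2⟩ := hE y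
  have hdeg : ∀ i, (N i).totalDegree ≤ Δ := by
    intro i
    apply hΔ
    have h1 := congrArg (dv R₀ d) (hN1 i)
    rw [map_mul, degK_algebraMap, degK_algebraMap, map_mul] at h1
    have h2 : degVal (MvPolynomial.C x : MvPolynomial (Fin d) R₀) = 1 := by
      rw [degVal_of_ne (by rwa [Ne, MvPolynomial.C_eq_zero]), MvPolynomial.totalDegree_C]
      simp
    rw [h2, one_mul] at h1
    rw [← h1]
    exact mul_le_mul' le_rfl (hB n l l' m i)
  have hσh : σK h ≠ 0 := by rw [Ne, map_eq_zero_iff _ hσ]; exact hh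
  have hσx : σK (MvPolynomial.C x) ≠ 0 := by
    rw [Ne, map_eq_zero_iff _ hσ, MvPolynomial.C_eq_zero]; exact hx
  have hxk : κ₀ (algebraMap R₀ k₀ x) ≠ 0 := by rw [hκ₀, ← hσC]; exact hσx
  have hmain : algebraMap R K y = ∑ αi : ι₀, κ₀ (algebraMap R₀ k₀ ((N αi.2).coeff αi.1.val) *
      (algebraMap R₀ k₀ x)⁻¹) * w₀ αi := by
    rw [Fintype.sum_prod_type_right]
    have h1 : ∀ i, σK (N i) = ∑ α : 𝒯, σK (MvPolynomial.C ((N i).coeff α.val)) *
        σK (MvPolynomial.monomial α.val 1) := by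
      intro i
      conv_lhs => rw [(N i).as_sum]
      rw [map_sum]
      have h2 : ∑ α ∈ (N i).support, σK (MvPolynomial.monomial α ((N i).coeff α)) =
          ∑ α ∈ 𝒯, σK (MvPolynomial.monomial α ((N i).coeff α)) := by
        refine Finset.sum_subset ?_ ?_
        · intro α hα
          rw [Set.Finite.mem_toFinset]
          have h3 := MvPolynomial.le_totalDegree hα
          exact h3.trans (hdeg i)
        · intro α _ hα
          rw [MvPolynomial.notMem_support_iff.mp hα]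
          simp
      rw [h2, ← Finset.sum_coe_sort 𝒯]
      refine Finset.sum_congr rfl fun α _ => ?_
      rw [← map_mul, MvPolynomial.C_mul_monomial, mul_one]
    apply mul_left_cancel₀ (mul_ne_zero hσx hσh)
    rw [← map_mul, hN2, Finset.mul_sum]
    refine Finset.sum_congr rfl fun i _ => ?_
    rw [h1 i, Finset.sum_mul, Finset.mul_sum]
    refine Finset.sum_congr rfl fun α _ => ?_
    simp only [w₀]
    rw [map_mul, map_mul, map_inv₀, hκ₀, hκ₀, ← hσC, ← hσC]
    field_simp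
  refine ⟨fun j => algebraMap R₀ k₀ ((N (eq.symm j).2).coeff (eq.symm j).1.val) *
      (algebraMap R₀ k₀ x)⁻¹, ?_⟩
  rw [hmain]
  exact (Equiv.sum_comp eq.symm (fun αi : ι₀ => κ₀ (algebraMap R₀ k₀ ((N αi.2).coeff αi.1.val) *
      (algebraMap R₀ k₀ x)⁻¹) * w₀ αi)).symm

/-- Globally nilpotent connections on a fixed open subset of the line are quotients of connections
over the field of definition of this open subset. -/
theorem isotrivial {R₀ R : Type u} [CommRing R₀] [IsDomain R₀] [CharZero R₀]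
    [Algebra.FiniteType ℤ R₀] [CommRing R] [IsDomain R] [Algebra R₀ R] [Algebra.FiniteType R₀ R]
    (K : Type u) [Field K] [Algebra R K] [IsFractionRing R K]
    (k₀ : Type v) [Field k₀] [Algebra R₀ k₀] [IsFractionRing R₀ k₀] [Algebra k₀ K]
    [Algebra R₀ K] [IsScalarTower R₀ R K] [IsScalarTower R₀ k₀ K]
    {r : ℕ} {T : R₀[X]} (hT : T ≠ 0) {M : Matrix (Fin r) (Fin r) R[X]}
    (hnil : GloballyNilpotent (T.map (algebraMap R₀ R)) M) :
    ∃ (m e : ℕ) (M' : Matrix (Fin m) (Fin m) k₀[X]),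
      IsQuotientOf (T.map (algebraMap R₀ K)) (M.map (mapRingHom (algebraMap R K)))
        ((T.map (algebraMap R₀ K)) ^ e) (M'.map (mapRingHom (algebraMap k₀ K))) := by
  have hkK : ∀ x, algebraMap k₀ K (algebraMap R₀ k₀ x) = algebraMap R K (algebraMap R₀ R x) := by
    intro x
    rw [← IsScalarTower.algebraMap_apply R₀ k₀ K, ← IsScalarTower.algebraMap_apply R₀ R K]
  have hinj : Function.Injective (algebraMap R₀ R) := by
    intro x y hxy
    have h1 := congrArg (algebraMap R K) hxy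
    rw [← hkK, ← hkK] at h1
    exact IsFractionRing.injective R₀ k₀ ((algebraMap k₀ K).injective h1)
  obtain ⟨s, w, hw⟩ := bounded_span (R₀ := R₀) (R := R) hinj K (algebraMap k₀ K) hkK hT hnil
  have hT₀ : T.map (algebraMap R₀ k₀) ≠ 0 :=
    (Polynomial.map_ne_zero_iff (IsFractionRing.injective R₀ k₀)).mpr hT
  have hTT : (T.map (algebraMap R₀ k₀)).map (algebraMap k₀ K) = T.map (algebraMap R₀ K) := by
    rw [Polynomial.map_map, ← IsScalarTower.algebraMap_eq]
  have hTT' : (T.map (algebraMap R₀ R)).map (algebraMap R K) = T.map (algebraMap R₀ K) := by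
    rw [Polynomial.map_map, ← IsScalarTower.algebraMap_eq]
  obtain ⟨m, e, M', P, P', hPP, hPM⟩ := descend (algebraMap k₀ K) hT₀
    (M.map (mapRingHom (algebraMap R K))) w (fun n l l' m => by
      obtain ⟨c, hc⟩ := hw n l l' m
      refine ⟨c, ?_⟩
      rw [← hc, hTT, ← hTT', ← QQ_map, Matrix.map_apply, coe_mapRingHom, coeff_map])
  refine ⟨m, e, M', P, P', hPP, fun z => ?_⟩
  have h1 := hPM z
  rw [hTT, Polynomial.map_pow, hTT] at h1
  exact h1

end Pool.Agent.W432.FD
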